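import Mathlib

/-! The space of finitely generated marked groups, condensed groups, quasi-isometry of finitely
generated groups, and a criterion for being condensed. -/

namespace Pool.Agent.R721.Cond

open Topology

/-- The set `𝒢_n` of normal subgroups of the free group `F_n`. -/
@[ext] structure NSub (n : ℕ) : Type where
  /-- the subgroup -/
  N : Subgroup (FreeGroup (Fin n))
  /-- it is normal -/
  normal : N.Normal

instance (n : ℕ) (N : NSub n) : N.1.Normal := N.2

open Classical in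
/-- The indicator function of a normal subgroup, a point of `2^{F_n}`. -/
noncomputable def chi (n : ℕ) (N : NSub n) : FreeGroup (Fin n) → Bool := fun w => decide (w ∈ N.1)

/-- `𝒢_n` has the topology induced from the product topology on `2^{F_n}`. -/
noncomputable instance (n : ℕ) : TopologicalSpace (NSub n) := TopologicalSpace.induced (chi n) inferInstance

/-- The space `𝒢` of finitely generated marked groups: the topological disjoint union of the
`𝒢_n` over `n ≥ 1`. -/
abbrev Marked : Type := Σ n : ℕ+, NSub n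

/-- The isomorphism class `[G]` in the space of marked groups. -/
def IsoClass (G : Type) [Group G] : Set Marked :=
  {p | Nonempty ((FreeGroup (Fin p.1) ⧸ p.2.1) ≃* G)}

/-- `G` is condensed: it is finitely generated and `[G]`, with the subspace topology, has no
isolated point. -/
def Condensed (G : Type) [Group G] : Prop :=
  Group.FG G ∧ ∀ x : IsoClass G, ¬ IsOpen ({x} : Set (IsoClass G))

/-- Word length with respect to a subset `S`: the least length of a product of elements of `S`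
and their inverses that equals `g`. -/
noncomputable def wordLen {G : Type} [Group G] (S : Set G) (g : G) : ℕ :=
  sInf {n | ∃ l : List G, l.length = n ∧ (∀ s ∈ l, s ∈ S ∨ s⁻¹ ∈ S) ∧ l.prod = g}

/-- Distance in the Cayley graph of `G` with respect to `S`. -/
noncomputable def cayleyDist {G : Type} [Group G] (S : Set G) (g h : G) : ℝ :=
  (wordLen S (g⁻¹ * h) : ℝ)

/-- `G` and `H` are finitely generated and the Cayley graphs with respect to some finite
generating sets are quasi-isometric. -/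
def QuasiIsometric (G H : Type) [Group G] [Group H] : Prop :=
  ∃ (S : Set G) (T : Set H), S.Finite ∧ T.Finite ∧
    Subgroup.closure S = ⊤ ∧ Subgroup.closure T = ⊤ ∧
    ∃ (f : G → H) (L C : ℝ), 1 ≤ L ∧ 0 ≤ C ∧
      (∀ g h, cayleyDist S g h / L - C ≤ cayleyDist T (f g) (f h) ∧
        cayleyDist T (f g) (f h) ≤ L * cayleyDist S g h + C) ∧
      ∀ y, ∃ g, cayleyDist T (f g) y ≤ C

/-! ### the topology -/

theorem mem_isoClass_ker {G : Type} [Group G] (n : ℕ+) (φ : FreeGroup (Fin n) →* G)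
    (hφ : Function.Surjective φ) :
    (⟨n, ⟨φ.ker, inferInstance⟩⟩ : Marked) ∈ IsoClass G :=
  ⟨QuotientGroup.quotientKerEquivOfSurjective φ hφ⟩

theorem exists_hom_of_mem {G : Type} [Group G] {n : ℕ+} {N : NSub n}
    (h : (⟨n, N⟩ : Marked) ∈ IsoClass G) :
    ∃ φ : FreeGroup (Fin n) →* G, Function.Surjective φ ∧ φ.ker = N.1 := by
  obtain ⟨e⟩ := h
  refine ⟨e.toMonoidHom.comp (QuotientGroup.mk' N.1), ?_, ?_⟩
  · exact e.surjective.comp (QuotientGroup.mk'_surjective N.1)
  · ext w
    simp only [MonoidHom.mem_ker, MonoidHom.comp_apply]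
    constructor
    · intro hw
      have : QuotientGroup.mk' N.1 w = 1 := e.injective (by simpa using hw)
      exact (QuotientGroup.eq_one_iff w).1 this
    · intro hw
      have : QuotientGroup.mk' N.1 w = 1 := (QuotientGroup.eq_one_iff w).2 hw
      rw [this]; simp

theorem isOpen_cyl {n : ℕ} (N : NSub n) (W : Finset (FreeGroup (Fin n))) :
    IsOpen {N' : NSub n | ∀ w ∈ W, (w ∈ N'.1 ↔ w ∈ N.1)} := by
  have : {N' : NSub n | ∀ w ∈ W, (w ∈ N'.1 ↔ w ∈ N.1)} =
      chi n ⁻¹' (⋂ w ∈ W, {f : FreeGroup (Fin n) → Bool | f w = chi n N w}) := by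
    ext N'
    simp only [Set.mem_ofPred_eq, Set.mem_preimage, Set.mem_iInter, chi]
    refine forall_congr' fun w => forall_congr' fun _ => ?_
    simp
  rw [this]
  refine IsOpen.preimage continuous_induced_dom ?_
  refine isOpen_biInter_finset fun w _ => ?_
  exact (isOpen_discrete ({chi n N w} : Set Bool)).preimage
    (continuous_apply (A := fun _ : FreeGroup (Fin n) => Bool) w)

theorem exists_cyl {n : ℕ} (N : NSub n) (U : Set (NSub n)) (hU : IsOpen U) (hN : N ∈ U) :
    ∃ W : Finset (FreeGroup (Fin n)), ∀ N' : NSub n, (∀ w ∈ W, (w ∈ N'.1 ↔ w ∈ N.1)) → N' ∈ U := by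
  obtain ⟨V, hV, rfl⟩ := isOpen_induced_iff.1 hU
  obtain ⟨I, u, hu, hI⟩ := isOpen_pi_iff.1 hV (chi n N) hN
  refine ⟨I, fun N' h => hI ?_⟩
  intro w hw
  have : chi n N' w = chi n N w := by
    have := h w hw
    simp only [chi]
    simpa using this
  rw [this]
  exact (hu w hw).2

theorem isolated_iff {G : Type} [Group G] {n : ℕ+} (N : NSub n)
    (hN : (⟨n, N⟩ : Marked) ∈ IsoClass G) :
    IsOpen ({⟨⟨n, N⟩, hN⟩} : Set (IsoClass G)) ↔
      ∃ W : Finset (FreeGroup (Fin n)), ∀ N' : NSub n, (⟨n, N'⟩ : Marked) ∈ IsoClass G →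
        (∀ w ∈ W, (w ∈ N'.1 ↔ w ∈ N.1)) → N' = N := by
  constructor
  · intro h
    obtain ⟨U, hU, hUe⟩ := isOpen_induced_iff.1 h
    have hNU : (⟨n, N⟩ : Marked) ∈ U := by
      have : (⟨⟨n, N⟩, hN⟩ : IsoClass G) ∈ (Subtype.val ⁻¹' U : Set (IsoClass G)) := by
        rw [hUe]; rfl
      exact this
    obtain ⟨W, hW⟩ := exists_cyl N (Sigma.mk (β := fun n : ℕ+ => NSub n) n ⁻¹' U)
      (hU.preimage continuous_sigmaMk) hNU
    refine ⟨W, fun N' hN' hw => ?_⟩
    have h1 : (⟨⟨n, N'⟩, hN'⟩ : IsoClass G) ∈ (Subtype.val ⁻¹' U : Set (IsoClass G)) := hW N' hw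
    rw [hUe] at h1
    have h2 : (⟨n, N'⟩ : Marked) = ⟨n, N⟩ := congrArg Subtype.val h1
    simpa using h2
  · rintro ⟨W, hW⟩
    refine isOpen_induced_iff.2 ⟨Sigma.mk (β := fun n : ℕ+ => NSub n) n '' {N' : NSub n | ∀ w ∈ W, (w ∈ N'.1 ↔ w ∈ N.1)},
      isOpenMap_sigmaMk _ (isOpen_cyl N W), ?_⟩
    ext ⟨p, hp⟩
    simp only [Set.mem_preimage, Set.mem_image, Set.mem_ofPred_eq, Set.mem_singleton_iff,
      Subtype.mk.injEq]
    constructor
    · rintro ⟨N', hN', rfl⟩
      rw [hW N' hp hN']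
    · rintro rfl
      exact ⟨N, fun w _ => Iff.rfl, rfl⟩

/-- Not condensed, from an isolated marking given as a surjection from a free group. -/
theorem not_condensed_of {G : Type} [Group G] (n : ℕ+) (φ : FreeGroup (Fin n) →* G)
    (hφ : Function.Surjective φ) (W : Finset (FreeGroup (Fin n)))
    (hW : ∀ ψ : FreeGroup (Fin n) →* G, Function.Surjective ψ →
      (∀ w ∈ W, (ψ w = 1 ↔ φ w = 1)) → ψ.ker = φ.ker) : ¬ Condensed G := by
  rintro ⟨-, h⟩
  refine h ⟨⟨n, ⟨φ.ker, inferInstance⟩⟩, mem_isoClass_ker n φ hφ⟩ ?_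
  rw [isolated_iff]
  refine ⟨W, fun N' hN' hw => ?_⟩
  obtain ⟨ψ, hψ, hk⟩ := exists_hom_of_mem hN'
  have := hW ψ hψ (fun w hwW => by
    have := hw w hwW
    rw [← hk] at this
    simpa [MonoidHom.mem_ker] using this)
  apply NSub.ext
  rw [← hk, this]

/-- Condensed, from one marking that is not isolated. -/
theorem condensed_of {G : Type} [Group G] (n : ℕ+) (φ : FreeGroup (Fin n) →* G)
    (hφ : Function.Surjective φ)
    (hW : ∀ W : Finset (FreeGroup (Fin n)), ∃ ψ : FreeGroup (Fin n) →* G,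
      Function.Surjective ψ ∧ (∀ w ∈ W, (ψ w = 1 ↔ φ w = 1)) ∧ ψ.ker ≠ φ.ker) :
    Condensed G := by
  classical
  refine ⟨?_, ?_⟩
  · have : Group.FG (FreeGroup (Fin n)) := inferInstance
    exact Group.fg_of_surjective hφ
  rintro ⟨⟨m, N⟩, hN⟩ ho
  rw [isolated_iff] at ho
  obtain ⟨W, hWN⟩ := ho
  obtain ⟨ψ, hψ, hk⟩ := exists_hom_of_mem hN
  -- translate markings
  choose wα hα using fun j : Fin m => hφ (ψ (FreeGroup.of j))
  choose wβ hβ using fun i : Fin n => hψ (φ (FreeGroup.of i))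
  set α : FreeGroup (Fin m) →* FreeGroup (Fin n) := FreeGroup.lift wα with hαd
  set β : FreeGroup (Fin n) →* FreeGroup (Fin m) := FreeGroup.lift wβ with hβd
  have hφα : φ.comp α = ψ := by
    ext j; simp [hαd, hα]
  have hψβ : ψ.comp β = φ := by
    ext i; simp [hβd, hβ]
  obtain ⟨φ', hφ's, hφ'W, hφ'k⟩ := hW (W.image α ∪
    (Finset.univ.image fun i : Fin n => (FreeGroup.of i)⁻¹ * α (β (FreeGroup.of i))))
  have h1 : (φ'.comp α).comp β = φ' := by
    ext i
    have h2 : φ' ((FreeGroup.of i)⁻¹ * α (β (FreeGroup.of i))) = 1 := by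
      rw [hφ'W _ (Finset.mem_union_right _ (Finset.mem_image_of_mem _ (Finset.mem_univ i)))]
      have h3 : φ (α (β (FreeGroup.of i))) = φ (FreeGroup.of i) := by
        have e1 : φ (α (β (FreeGroup.of i))) = (φ.comp α) (β (FreeGroup.of i)) := rfl
        have e2 : ψ (β (FreeGroup.of i)) = (ψ.comp β) (FreeGroup.of i) := rfl
        rw [e1, hφα, e2, hψβ]
      rw [map_mul, map_inv, h3, inv_mul_cancel]
    rw [map_mul, map_inv, inv_mul_eq_one] at h2
    exact h2.symm
  have hs : Function.Surjective (φ'.comp α) := by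
    intro g
    obtain ⟨u, hu⟩ := hφ's g
    refine ⟨β u, ?_⟩
    have : (φ'.comp α) (β u) = ((φ'.comp α).comp β) u := rfl
    rw [this, h1, hu]
  have hN' := hWN ⟨(φ'.comp α).ker, inferInstance⟩ (mem_isoClass_ker m _ hs) (by
    intro w hw
    rw [← hk]
    simp only [MonoidHom.mem_ker]
    rw [← hφα]
    exact hφ'W _ (Finset.mem_union_left _ (Finset.mem_image_of_mem _ hw)))
  have hker : (φ'.comp α).ker = ψ.ker := by
    rw [hk]; exact congrArg NSub.N hN'
  apply hφ'k
  ext u
  have e1 : φ' u = (φ'.comp α) (β u) := by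
    conv_lhs => rw [← h1]
    rfl
  have e2 : φ u = ψ (β u) := by
    conv_lhs => rw [← hψβ]
    rfl
  rw [MonoidHom.mem_ker, MonoidHom.mem_ker, e1, e2, ← MonoidHom.mem_ker, ← MonoidHom.mem_ker,
    hker]

theorem condensed_of' {G : Type} [Group G] (n : ℕ) (hn : 0 < n) (φ : FreeGroup (Fin n) →* G)
    (hφ : Function.Surjective φ)
    (hW : ∀ W : Finset (FreeGroup (Fin n)), ∃ ψ : FreeGroup (Fin n) →* G,
      Function.Surjective ψ ∧ (∀ w ∈ W, (ψ w = 1 ↔ φ w = 1)) ∧ ψ.ker ≠ φ.ker) :
    Condensed G :=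
  condensed_of ⟨n, hn⟩ φ hφ hW

theorem not_condensed_of' {G : Type} [Group G] (n : ℕ) (hn : 0 < n) (φ : FreeGroup (Fin n) →* G)
    (hφ : Function.Surjective φ) (W : Finset (FreeGroup (Fin n)))
    (hW : ∀ ψ : FreeGroup (Fin n) →* G, Function.Surjective ψ →
      (∀ w ∈ W, (ψ w = 1 ↔ φ w = 1)) → ψ.ker = φ.ker) : ¬ Condensed G :=
  not_condensed_of ⟨n, hn⟩ φ hφ W hW

/-! ### word length -/

theorem exists_list {G : Type} [Group G] {S : Set G} (hS : Subgroup.closure S = ⊤) (g : G) :
    ∃ l : List G, l.length = wordLen S g ∧ (∀ s ∈ l, s ∈ S ∨ s⁻¹ ∈ S) ∧ l.prod = g := by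
  have hne : {n | ∃ l : List G, l.length = n ∧ (∀ s ∈ l, s ∈ S ∨ s⁻¹ ∈ S) ∧ l.prod = g}.Nonempty := by
    have hg : g ∈ Subgroup.closure S := by rw [hS]; trivial
    rw [← Subgroup.mem_toSubmonoid, Subgroup.closure_toSubmonoid] at hg
    obtain ⟨l, hl, hp⟩ := Submonoid.exists_list_of_mem_closure hg
    refine ⟨l.length, l, rfl, fun s hs => ?_, hp⟩
    simpa using hl s hs
  exact Nat.sInf_mem hne

theorem wordLen_le {G : Type} [Group G] {S : Set G} (l : List G)
    (hl : ∀ s ∈ l, s ∈ S ∨ s⁻¹ ∈ S) : wordLen S l.prod ≤ l.length :=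
  Nat.sInf_le ⟨l, rfl, hl, rfl⟩

theorem wordLen_mul_le {G : Type} [Group G] {S : Set G} (hS : Subgroup.closure S = ⊤) (g h : G) :
    wordLen S (g * h) ≤ wordLen S g + wordLen S h := by
  obtain ⟨l, h1, h2, h3⟩ := exists_list hS g
  obtain ⟨l', h1', h2', h3'⟩ := exists_list hS h
  have := wordLen_le (S := S) (l ++ l') (by
    intro s hs
    rcases List.mem_append.1 hs with hs | hs
    · exact h2 s hs
    · exact h2' s hs)
  rw [List.prod_append, h3, h3', List.length_append, h1, h1'] at this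
  exact this

/-- A surjection with finite kernel changes word lengths by a bounded amount. -/
theorem wordLen_map {G H : Type} [Group G] [Group H] (π : H →* G)
    (hfin : (π.ker : Set H).Finite) {S : Set H}
    (hS : Subgroup.closure S = ⊤) (hT : Subgroup.closure (π '' S) = ⊤) :
    ∃ C : ℕ, (∀ k ∈ π.ker, wordLen S k ≤ C) ∧
      ∀ u, wordLen (π '' S) (π u) ≤ wordLen S u ∧ wordLen S u ≤ wordLen (π '' S) (π u) + C := by
  classical
  obtain ⟨C, hC⟩ : ∃ C : ℕ, ∀ k ∈ π.ker, wordLen S k ≤ C := by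
    refine ⟨hfin.toFinset.sup (wordLen S), fun k hk => ?_⟩
    exact Finset.le_sup (f := wordLen S) (hfin.mem_toFinset.2 hk)
  refine ⟨C, hC, fun u => ⟨?_, ?_⟩⟩
  · obtain ⟨l, h1, h2, h3⟩ := exists_list hS u
    have := wordLen_le (S := π '' S) (l.map π) (by
      intro s hs
      obtain ⟨a, ha, rfl⟩ := List.mem_map.1 hs
      rcases h2 a ha with h | h
      · exact Or.inl ⟨a, h, rfl⟩
      · exact Or.inr ⟨a⁻¹, h, by simp⟩)
    rw [List.length_map, h1, ← map_list_prod, h3] at this
    exact this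
  · obtain ⟨l, h1, h2, h3⟩ := exists_list hT (π u)
    -- lift the list
    have hlift : ∀ l : List G, (∀ s ∈ l, s ∈ π '' S ∨ s⁻¹ ∈ π '' S) →
        ∃ l' : List H, l'.length = l.length ∧ (∀ s ∈ l', s ∈ S ∨ s⁻¹ ∈ S) ∧ π l'.prod = l.prod := by
      intro l
      induction l with
      | nil => intro _; exact ⟨[], rfl, by simp, by simp⟩
      | cons a l ih =>
        intro hl
        obtain ⟨l', i1, i2, i3⟩ := ih (fun s hs => hl s (List.mem_cons_of_mem _ hs))
        rcases hl a List.mem_cons_self with ⟨b, hb, hba⟩ | ⟨b, hb, hba⟩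
        · refine ⟨b :: l', by simp [i1], ?_, by simp [i3, hba]⟩
          intro s hs
          rcases List.mem_cons.1 hs with rfl | hs
          · exact Or.inl hb
          · exact i2 s hs
        · refine ⟨b⁻¹ :: l', by simp [i1], ?_, by simp [i3, hba]⟩
          intro s hs
          rcases List.mem_cons.1 hs with rfl | hs
          · right; simpa using hb
          · exact i2 s hs
    obtain ⟨l', i1, i2, i3⟩ := hlift l h2
    have hk : (l'.prod)⁻¹ * u ∈ π.ker := by
      rw [MonoidHom.mem_ker, map_mul, map_inv, i3, h3]; simp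
    have h4 : wordLen S u ≤ wordLen S l'.prod + C := by
      have := wordLen_mul_le hS l'.prod ((l'.prod)⁻¹ * u)
      rw [mul_inv_cancel_left] at this
      exact this.trans (by have := hC _ hk; omega)
    have h5 : wordLen S l'.prod ≤ wordLen (π '' S) (π u) := by
      have := wordLen_le (S := S) l' i2
      omega
    omega

/-- A section of a surjection with finite kernel is a quasi-isometry. -/
theorem quasiIsometric_of {G H : Type} [Group G] [Group H] (π : H →* G)
    (hπ : Function.Surjective π) (hfin : (π.ker : Set H).Finite) {S : Set H} (hSf : S.Finite)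
    (hS : Subgroup.closure S = ⊤) : QuasiIsometric G H := by
  have hT : Subgroup.closure (π '' S) = ⊤ := by
    rw [← MonoidHom.map_closure, hS, Subgroup.map_top_of_surjective π hπ]
  obtain ⟨C, hC, hw⟩ := wordLen_map π hfin hS hT
  have hs : ∀ g, π (Function.surjInv hπ g) = g := Function.surjInv_eq hπ
  refine ⟨π '' S, S, hSf.image _, hSf, hT, hS, Function.surjInv hπ, 1, C, le_refl _,
    Nat.cast_nonneg _, ?_, ?_⟩
  · intro g h
    obtain ⟨h1, h2⟩ := hw ((Function.surjInv hπ g)⁻¹ * Function.surjInv hπ h)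
    rw [map_mul, map_inv, hs, hs] at h1 h2
    unfold cayleyDist
    have h3 : (wordLen (π '' S) (g⁻¹ * h) : ℝ) ≤
        wordLen S ((Function.surjInv hπ g)⁻¹ * Function.surjInv hπ h) := by exact_mod_cast h1
    have h4 : (wordLen S ((Function.surjInv hπ g)⁻¹ * Function.surjInv hπ h) : ℝ) ≤
        wordLen (π '' S) (g⁻¹ * h) + C := by exact_mod_cast h2
    have h5 : (0 : ℝ) ≤ C := Nat.cast_nonneg _
    constructor
    · rw [div_one]; linarith
    · linarith
  · intro y
    refine ⟨π y, ?_⟩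
    have hk : (Function.surjInv hπ (π y))⁻¹ * y ∈ π.ker := by
      rw [MonoidHom.mem_ker, map_mul, map_inv, hs]; simp
    unfold cayleyDist
    exact_mod_cast hC _ hk

end Pool.Agent.R721.Cond
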