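import Mathlib
import Pool.Agent.R721.Cond.Base

/-! P. Hall's group `Γ` of upper triangular matrices over `ℤ[t, t⁻¹]`, with centre `ℤ[t, t⁻¹]`,
and its automorphisms. -/

namespace Pool.Agent.R721.Cond

open LaurentPolynomial

/-- The ring of Laurent polynomials `ℤ[t, t⁻¹]`. -/
abbrev R : Type := LaurentPolynomial ℤ

/-- The monomial `t ^ n`. -/
noncomputable abbrev tt (n : ℤ) : R := LaurentPolynomial.T n

/-- P. Hall's group: `⟨a, b, c, n⟩` stands for the matrix with rows `(1, a, c)`, `(0, t ^ n, b)`,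
`(0, 0, 1)` over `ℤ[t, t⁻¹]`. -/
@[ext] structure Ga : Type where
  /-- entry `(1, 2)` -/
  a : R
  /-- entry `(2, 3)` -/
  b : R
  /-- entry `(1, 3)` -/
  c : R
  /-- the exponent of `t` in entry `(2, 2)` -/
  n : ℤ

namespace Ga

noncomputable instance : Mul Ga :=
  ⟨fun x y => ⟨y.a + x.a * tt y.n, tt x.n * y.b + x.b, x.c + y.c + x.a * y.b, x.n + y.n⟩⟩

noncomputable instance : One Ga := ⟨⟨0, 0, 0, 0⟩⟩

noncomputable instance : Inv Ga :=
  ⟨fun x => ⟨-(x.a * tt (-x.n)), -(tt (-x.n) * x.b), -x.c + x.a * x.b * tt (-x.n), -x.n⟩⟩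

@[simp] theorem mul_a (x y : Ga) : (x * y).a = y.a + x.a * tt y.n := rfl
@[simp] theorem mul_b (x y : Ga) : (x * y).b = tt x.n * y.b + x.b := rfl
@[simp] theorem mul_c (x y : Ga) : (x * y).c = x.c + y.c + x.a * y.b := rfl
@[simp] theorem mul_n (x y : Ga) : (x * y).n = x.n + y.n := rfl
@[simp] theorem one_a : (1 : Ga).a = 0 := rfl
@[simp] theorem one_b : (1 : Ga).b = 0 := rfl
@[simp] theorem one_c : (1 : Ga).c = 0 := rfl
@[simp] theorem one_n : (1 : Ga).n = 0 := rfl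
@[simp] theorem inv_a (x : Ga) : (x⁻¹).a = -(x.a * tt (-x.n)) := rfl
@[simp] theorem inv_b (x : Ga) : (x⁻¹).b = -(tt (-x.n) * x.b) := rfl
@[simp] theorem inv_c (x : Ga) : (x⁻¹).c = -x.c + x.a * x.b * tt (-x.n) := rfl
@[simp] theorem inv_n (x : Ga) : (x⁻¹).n = -x.n := rfl

theorem tt_add (m n : ℤ) : tt (m + n) = tt m * tt n := LaurentPolynomial.T_add m n

theorem tt_neg_mul (n : ℤ) : tt (-n) * tt n = 1 := by
  rw [← tt_add]; simp [tt]

theorem tt_mul_neg (n : ℤ) : tt n * tt (-n) = 1 := by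
  rw [← tt_add]; simp [tt]

theorem tt_zero : tt 0 = 1 := LaurentPolynomial.T_zero

noncomputable instance : Group Ga :=
  Group.ofLeftAxioms
    (fun x y z => by
      ext1
      · simp only [mul_a, mul_n, tt_add]; ring
      · simp only [mul_b, mul_n, tt_add]; ring
      · simp only [mul_c, mul_a, mul_b]; ring
      · simp only [mul_n]; ring)
    (fun x => by
      ext1
      · simp
      · simp
      · simp
      · simp)
    (fun x => by
      ext1
      · simp only [mul_a, inv_a, one_a]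
        linear_combination (-x.a) * tt_neg_mul x.n
      · simp only [mul_b, inv_b, inv_n, one_b]; ring
      · simp only [mul_c, inv_c, inv_a, one_c]; ring
      · simp)

/-- The central subgroup of `Γ` of the `⟨0, 0, c, 0⟩` with `c ∈ S`. -/
def Z (S : AddSubgroup R) : Subgroup Ga where
  carrier := {g | g.a = 0 ∧ g.b = 0 ∧ g.n = 0 ∧ g.c ∈ S}
  mul_mem' := by
    rintro x y ⟨h1, h2, h3, h4⟩ ⟨k1, k2, k3, k4⟩
    refine ⟨by simp [h1, k1], by simp [h2, k2], by simp [h3, k3], ?_⟩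
    rw [mul_c, h1, zero_mul, add_zero]; exact S.add_mem h4 k4
  one_mem' := ⟨rfl, rfl, rfl, S.zero_mem⟩
  inv_mem' := by
    rintro x ⟨h1, h2, h3, h4⟩
    refine ⟨by simp [h1], by simp [h2], by simp [h3], ?_⟩
    rw [inv_c, h1, zero_mul, zero_mul, add_zero]; exact S.neg_mem h4

theorem mem_Z {S : AddSubgroup R} {g : Ga} :
    g ∈ Z S ↔ g.a = 0 ∧ g.b = 0 ∧ g.n = 0 ∧ g.c ∈ S := Iff.rfl

theorem central {z : Ga} (h1 : z.a = 0) (h2 : z.b = 0) (h3 : z.n = 0) (g : Ga) :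
    g * z = z * g := by
  ext1
  · simp [h1, h3]
  · simp [h2, h3]
  · simp [h1, h2]; ring
  · simp [h3]

instance (S : AddSubgroup R) : (Z S).Normal where
  conj_mem := by
    intro z hz g
    have : g * z * g⁻¹ = z := by
      rw [central hz.1 hz.2.1 hz.2.2.1 g, mul_assoc, mul_inv_cancel, mul_one]
    rw [this]; exact hz

/-- The generator `t`. -/
noncomputable def gt : Ga := ⟨0, 0, 0, 1⟩
/-- The generator `x`. -/
noncomputable def gx : Ga := ⟨1, 0, 0, 0⟩
/-- The generator `y`. -/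
noncomputable def gy : Ga := ⟨0, 1, 0, 0⟩

theorem gt_zpow (k : ℤ) : gt ^ k = ⟨0, 0, 0, k⟩ := by
  let h : Multiplicative ℤ →* Ga :=
    { toFun := fun k => ⟨0, 0, 0, k.toAdd⟩
      map_one' := rfl
      map_mul' := fun x y => by ext1 <;> simp }
  have h1 : h (Multiplicative.ofAdd 1) = gt := rfl
  have h2 : h (Multiplicative.ofAdd k) = ⟨0, 0, 0, k⟩ := rfl
  rw [← h1, ← h2, ← map_zpow, ← ofAdd_zsmul]
  simp

theorem addSubgroup_eq_top (A : AddSubgroup R) (h : ∀ k, tt k ∈ A) (p : R) : p ∈ A := by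
  induction p using LaurentPolynomial.induction_on' with
  | add p q hp hq => exact A.add_mem hp hq
  | C_mul_T n a =>
    have : (LaurentPolynomial.C a * LaurentPolynomial.T n : R) = a • tt n := by
      rw [LaurentPolynomial.smul_eq_C_mul]
    rw [this]
    exact A.zsmul_mem (h n) a

theorem closure_aux (K : Subgroup Ga) (h1 : gt ∈ K) (h2 : gx ∈ K) (h3 : gy ∈ K) (g : Ga) :
    g ∈ K := by
  have ht : ∀ k : ℤ, (⟨0, 0, 0, k⟩ : Ga) ∈ K := fun k => by
    rw [← gt_zpow]; exact K.zpow_mem h1 k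
  have ha : ∀ p : R, (⟨p, 0, 0, 0⟩ : Ga) ∈ K := by
    refine addSubgroup_eq_top
      { carrier := {p | (⟨p, 0, 0, 0⟩ : Ga) ∈ K}
        add_mem' := ?_
        zero_mem' := K.one_mem
        neg_mem' := ?_ } ?_
    · intro p q hp hq
      have := K.mul_mem hp hq
      have e : (⟨p, 0, 0, 0⟩ : Ga) * ⟨q, 0, 0, 0⟩ = ⟨p + q, 0, 0, 0⟩ := by
        ext1 <;> simp [add_comm]
      rwa [e] at this
    · intro p hp
      have := K.inv_mem hp
      have e : (⟨p, 0, 0, 0⟩ : Ga)⁻¹ = ⟨-p, 0, 0, 0⟩ := by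
        ext1 <;> simp
      rwa [e] at this
    · intro k
      have := K.mul_mem (K.mul_mem (ht (-k)) h2) (ht k)
      have e : (⟨0, 0, 0, -k⟩ : Ga) * gx * ⟨0, 0, 0, k⟩ = ⟨tt k, 0, 0, 0⟩ := by
        ext1 <;> simp [gx]
      rwa [e] at this
  have hb : ∀ p : R, (⟨0, p, 0, 0⟩ : Ga) ∈ K := by
    refine addSubgroup_eq_top
      { carrier := {p | (⟨0, p, 0, 0⟩ : Ga) ∈ K}
        add_mem' := ?_
        zero_mem' := K.one_mem
        neg_mem' := ?_ } ?_
    · intro p q hp hq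
      have := K.mul_mem hp hq
      have e : (⟨0, p, 0, 0⟩ : Ga) * ⟨0, q, 0, 0⟩ = ⟨0, p + q, 0, 0⟩ := by
        ext1 <;> simp [add_comm]
      rwa [e] at this
    · intro p hp
      have := K.inv_mem hp
      have e : (⟨0, p, 0, 0⟩ : Ga)⁻¹ = ⟨0, -p, 0, 0⟩ := by
        ext1 <;> simp
      rwa [e] at this
    · intro k
      have := K.mul_mem (K.mul_mem (ht k) h3) (ht (-k))
      have e : (⟨0, 0, 0, k⟩ : Ga) * gy * ⟨0, 0, 0, -k⟩ = ⟨0, tt k, 0, 0⟩ := by
        ext1 <;> simp [gy]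
      rwa [e] at this
  have hc : ∀ p : R, (⟨0, 0, p, 0⟩ : Ga) ∈ K := by
    intro p
    have := K.mul_mem (K.mul_mem (ha 1) (hb p)) (K.mul_mem (K.inv_mem (ha 1)) (K.inv_mem (hb p)))
    have e : (⟨1, 0, 0, 0⟩ : Ga) * ⟨0, p, 0, 0⟩ * ((⟨1, 0, 0, 0⟩ : Ga)⁻¹ * (⟨0, p, 0, 0⟩ : Ga)⁻¹)
        = ⟨0, 0, p, 0⟩ := by
      ext1 <;> simp
    rwa [e] at this
  have e : g = ⟨0, g.b, 0, 0⟩ * ⟨g.a * tt (-g.n), 0, 0, 0⟩ * ⟨0, 0, g.c, 0⟩ * ⟨0, 0, 0, g.n⟩ := by
    ext1
    · simp only [mul_a, tt_zero]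
      linear_combination (-g.a) * tt_neg_mul g.n
    · simp
    · simp
    · simp
  rw [e]
  exact K.mul_mem (K.mul_mem (K.mul_mem (hb _) (ha _)) (hc _)) (ht _)

/-- The standard marking of `Γ`. -/
noncomputable def mark (T X Y : Ga) : FreeGroup (Fin 3) →* Ga := FreeGroup.lift ![T, X, Y]

@[simp] theorem mark_zero (T X Y : Ga) : mark T X Y (FreeGroup.of 0) = T := by simp [mark]
@[simp] theorem mark_one (T X Y : Ga) : mark T X Y (FreeGroup.of 1) = X := by simp [mark]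
@[simp] theorem mark_two (T X Y : Ga) : mark T X Y (FreeGroup.of 2) = Y := by simp [mark]

theorem mark_surjective : Function.Surjective (mark gt gx gy) := by
  intro g
  exact closure_aux (mark gt gx gy).range ⟨_, mark_zero _ _ _⟩ ⟨_, mark_one _ _ _⟩
    ⟨_, mark_two _ _ _⟩ g

/-- A homomorphism from `F_3` is the marking by the images of the generators. -/
theorem eq_mark (φ : FreeGroup (Fin 3) →* Ga) :
    φ = mark (φ (FreeGroup.of 0)) (φ (FreeGroup.of 1)) (φ (FreeGroup.of 2)) := by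
  refine FreeGroup.ext_hom _ _ fun i => ?_
  fin_cases i <;> simp

theorem comp_mark (Ψ : Ga →* Ga) (T X Y : Ga) :
    Ψ.comp (mark T X Y) = mark (Ψ T) (Ψ X) (Ψ Y) := by
  rw [eq_mark (Ψ.comp (mark T X Y))]; simp

theorem mark_mem (K : Subgroup Ga) {T X Y : Ga} (h1 : T ∈ K) (h2 : X ∈ K) (h3 : Y ∈ K)
    (w : FreeGroup (Fin 3)) : mark T X Y w ∈ K := by
  have : (mark T X Y).range ≤ K := by
    refine FreeGroup.range_lift_le ?_
    rintro _ ⟨i, rfl⟩
    fin_cases i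
    · exact h1
    · exact h2
    · exact h3
  exact this ⟨w, rfl⟩

end Ga

end Pool.Agent.R721.Cond
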