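import Mathlib
import Pool.Agent.R721.Cond.Hall

/-! Automorphisms of P. Hall's group. -/

namespace Pool.Agent.R721.Cond

open LaurentPolynomial

namespace Ga

instance : IsDomain R := inferInstance

/-- the augmentation `ℤ[t, t⁻¹] → ℤ`, `t ↦ 1`, with values in constants -/
noncomputable def au : R →+* R := (LaurentPolynomial.C).comp
  (LaurentPolynomial.eval₂ (RingHom.id ℤ) (1 : ℤˣ))

@[simp] theorem au_tt (n : ℤ) : au (tt n) = 1 := by
  simp [au, tt]

@[simp] theorem au_T (n : ℤ) : au (LaurentPolynomial.T n) = 1 := au_tt n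

theorem tt_inj {m n : ℤ} (h : tt m = tt n) : m = n := by
  have h1 := congrArg (fun p : R => p.coeff m) h
  simp only [tt, LaurentPolynomial.T_apply] at h1
  by_contra hne
  rw [if_pos trivial, if_neg (fun e => hne e.symm)] at h1
  exact one_ne_zero h1

theorem t1_ne : (tt 1 - 1 : R) ≠ 0 := by
  intro h
  have := tt_inj (m := 1) (n := 0) (by rw [tt_zero]; linear_combination h)
  omega

theorem dvd_T_nat (n : ℕ) : (tt 1 - 1 : R) ∣ tt (n : ℤ) - 1 := by
  have : (tt (n : ℤ) : R) = (tt 1) ^ n := by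
    simp [tt, LaurentPolynomial.T_pow]
  rw [this]
  exact sub_one_dvd_pow_sub_one _ _

theorem dvd_T (n : ℤ) : (tt 1 - 1 : R) ∣ tt n - 1 := by
  rcases Int.eq_nat_or_neg n with ⟨m, rfl | rfl⟩
  · exact dvd_T_nat m
  · have : (tt (-(m : ℤ)) - 1 : R) = (tt (m : ℤ) - 1) * (-tt (-(m : ℤ))) := by
      linear_combination tt_mul_neg (m : ℤ)
    rw [this]
    exact Dvd.dvd.mul_right (dvd_T_nat m) _

theorem dvd_sub_au (p : R) : (tt 1 - 1 : R) ∣ p - au p := by
  induction p using LaurentPolynomial.induction_on' with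
  | add p q hp hq =>
    have : p + q - au (p + q) = (p - au p) + (q - au q) := by rw [map_add]; ring
    rw [this]; exact dvd_add hp hq
  | C_mul_T n a =>
    have : (LaurentPolynomial.C a * LaurentPolynomial.T n : R) -
        au (LaurentPolynomial.C a * LaurentPolynomial.T n) =
        (tt n - 1) * LaurentPolynomial.C a := by
      rw [map_mul, au_T]
      have : au (LaurentPolynomial.C a : R) = LaurentPolynomial.C a := by simp [au]
      rw [this]; ring
    rw [this]
    exact Dvd.dvd.mul_right (dvd_T n) _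

/-- `D p = (p - p(1)) / (t - 1)` -/
noncomputable def D (p : R) : R := Classical.choose (dvd_sub_au p)

theorem D_spec (p : R) : p - au p = (tt 1 - 1) * D p := Classical.choose_spec (dvd_sub_au p)

theorem D_unique {p q : R} (h : p - au p = (tt 1 - 1) * q) : D p = q := by
  apply mul_left_cancel₀ t1_ne
  rw [← D_spec, h]

theorem D_add (p q : R) : D (p + q) = D p + D q := by
  apply D_unique
  rw [map_add]
  linear_combination D_spec p + D_spec q

theorem D_mul (p q : R) : D (p * q) = D p * q + au p * D q := by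
  apply D_unique
  rw [map_mul]
  linear_combination q * D_spec p + au p * D_spec q

theorem D_mul' (p q : R) : D (p * q) = p * D q + D p * au q := by
  rw [mul_comm p q, D_mul]; ring

theorem D_one : D 1 = 0 := by
  apply D_unique; simp

theorem D_zero : D 0 = 0 := by
  apply D_unique; simp

theorem D_t1 : D (tt 1) = 1 := by
  apply D_unique; rw [au_tt]; ring

/-- The endomorphism of `Γ` sending `t, x, y` to
`⟨e, f, g, 1⟩, ⟨a, 0, c₁, 0⟩, ⟨0, d, c₂, 0⟩`. -/
noncomputable def Psi (a d e f g c1 c2 : R) : Ga →* Ga where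
  toFun x := ⟨a * x.a + e * D (tt x.n), d * x.b + f * D (tt x.n),
    a * d * x.c + e * d * D x.b + f * a * D x.a + (x.n : R) * g + e * f * D (D (tt x.n))
      + c1 * au x.a + c2 * au x.b, x.n⟩
  map_one' := by
    ext1
    · simp only [one_a, one_n, tt_zero, D_one]; ring
    · simp only [one_b, one_n, tt_zero, D_one]; ring
    · simp only [one_a, one_b, one_c, one_n, tt_zero, D_one, D_zero, map_zero]; simp
    · rfl
  map_mul' x y := by
    ext1
    · simp only [mul_a, mul_n, tt_add, D_mul (tt x.n), au_tt]; ring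
    · simp only [mul_b, mul_n, tt_add, D_mul' (tt x.n), au_tt]; ring
    · simp only [mul_a, mul_b, mul_c, mul_n, tt_add, D_mul' (tt x.n) (tt y.n), au_tt, D_add,
        D_mul (tt x.n) y.b, D_mul' x.a (tt y.n), map_add, map_mul, Int.cast_add,
        D_mul (tt x.n) (D (tt y.n)), mul_one, one_mul]
      ring
    · simp

theorem Psi_gt (a d e f g c1 c2 : R) : Psi a d e f g c1 c2 gt = ⟨e, f, g, 1⟩ := by
  ext1 <;> simp [Psi, gt, D_t1, D_one, D_zero]

theorem Psi_gx (a d e f g c1 c2 : R) : Psi a d e f g c1 c2 gx = ⟨a, 0, c1, 0⟩ := by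
  ext1 <;> simp [Psi, gx, D_one, D_zero]

theorem Psi_gy (a d e f g c1 c2 : R) : Psi a d e f g c1 c2 gy = ⟨0, d, c2, 0⟩ := by
  ext1 <;> simp [Psi, gy, D_one, D_zero]

/-- The automorphism `t ↦ t⁻¹`, `x ↦ x`, `y ↦ y`. -/
noncomputable def E2 : Ga →* Ga where
  toFun x := ⟨invert x.a, invert x.b, invert x.c, -x.n⟩
  map_one' := by ext1 <;> simp
  map_mul' x y := by
    ext1
    · simp
    · simp
    · simp
    · simp; ring

/-- The automorphism `t ↦ t⁻¹`, `x ↦ y`, `y ↦ x`. -/
noncomputable def E3 : Ga →* Ga where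
  toFun x := ⟨tt (-x.n) * x.b, tt (-x.n) * x.a, tt (-x.n) * x.a * x.b - x.c, -x.n⟩
  map_one' := by ext1 <;> simp
  map_mul' x y := by
    have hx := tt_neg_mul x.n
    have hy := tt_neg_mul y.n
    ext1
    · simp only [mul_a, mul_b, mul_n, neg_add, tt_add]
      linear_combination (tt (-y.n) * y.b) * hx
    · simp only [mul_a, mul_b, mul_n, neg_add, tt_add]
      linear_combination (tt (-x.n) * x.a) * hy
    · simp only [mul_a, mul_b, mul_c, mul_n, neg_add, tt_add]
      linear_combination (tt (-y.n) * y.a * y.b + x.a * y.b * (tt (-y.n) * tt y.n)) * hx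
        + (x.a * y.b + tt (-x.n) * x.a * x.b) * hy
    · simp; ring

theorem E2_gt : E2 gt = gt⁻¹ := by ext1 <;> simp [E2, gt]
theorem E2_gx : E2 gx = gx := by ext1 <;> simp [E2, gx]
theorem E2_gy : E2 gy = gy := by ext1 <;> simp [E2, gy]
theorem E3_gt : E3 gt = gt⁻¹ := by ext1 <;> simp [E3, gt]
theorem E3_gx : E3 gx = gy := by ext1 <;> simp [E3, gx, gy]
theorem E3_gy : E3 gy = gx := by ext1 <;> simp [E3, gx, gy]

end Ga

end Pool.Agent.R721.Cond
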