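import Mathlib
import Pool.Agent.R721.Cond.Aut

/-! The Toeplitz set `C` of integers of odd `2`-adic valuation, the subgroups `S`, `S'`. -/

namespace Pool.Agent.R721.Cond

open LaurentPolynomial

/-- `k` is a nonzero integer with odd `2`-adic valuation. -/
def inC (k : ℤ) : Prop := ∃ (j : ℕ) (m : ℤ), k = 2 * 4 ^ j * (2 * m + 1)

theorem inC_neg {k : ℤ} (h : inC k) : inC (-k) := by
  obtain ⟨j, m, rfl⟩ := h
  exact ⟨j, -m - 1, by ring⟩

theorem inC_neg_iff {k : ℤ} : inC (-k) ↔ inC k :=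
  ⟨fun h => by simpa using inC_neg h, inC_neg⟩

theorem inC_of_mod {k : ℤ} (h : k % 4 = 2) : inC k := by
  refine ⟨0, k / 4, ?_⟩
  rw [pow_zero]; omega

theorem not_inC_zero : ¬ inC 0 := by
  rintro ⟨j, m, h⟩
  have h1 : (2 * 4 ^ j : ℤ) ≠ 0 := by positivity
  have h2 : (2 * m + 1 : ℤ) ≠ 0 := by omega
  exact mul_ne_zero h1 h2 h.symm

theorem inC_two_pow (J : ℕ) : inC (2 * 4 ^ J) := ⟨J, 0, by ring⟩

theorem four_pow_split {j J : ℕ} (h : j < J) : (4 : ℤ) ^ J = 4 ^ j * (4 * 4 ^ (J - j - 1)) := by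
  have : J = j + (1 + (J - j - 1)) := by omega
  conv_lhs => rw [this]
  rw [pow_add, pow_add, pow_one]

theorem not_inC_pow (J : ℕ) : ¬ inC (4 ^ J) := by
  rintro ⟨j, m, h⟩
  have h4 : (4 ^ J : ℤ) ≠ 0 := by positivity
  have h4j : (4 ^ j : ℤ) ≠ 0 := by positivity
  rcases le_or_gt J j with hj | hj
  · obtain ⟨i, rfl⟩ := Nat.exists_eq_add_of_le hj
    rw [pow_add] at h
    have : (4 : ℤ) ^ J * 1 = 4 ^ J * (2 * (4 ^ i * (2 * m + 1))) := by
      rw [mul_one]; linear_combination h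
    have := mul_left_cancel₀ h4 this
    omega
  · rw [four_pow_split hj] at h
    have : (4 : ℤ) ^ j * (4 * 4 ^ (J - j - 1)) = 4 ^ j * (2 * (2 * m + 1)) := by
      linear_combination h
    have := mul_left_cancel₀ h4j this
    omega

theorem inC_shift {J : ℕ} {i : ℤ} (hi : |i| < 4 ^ J) : inC (i - 4 ^ J) ↔ inC i := by
  have h4 : (0 : ℤ) < 4 ^ J := by positivity
  constructor
  · rintro ⟨j, m, h⟩
    rcases le_or_gt J j with hj | hj
    · exfalso
      obtain ⟨k, rfl⟩ := Nat.exists_eq_add_of_le hj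
      rw [pow_add] at h
      have hi2 : i = 4 ^ J * (2 * (4 ^ k * (2 * m + 1)) + 1) := by linear_combination h
      have h5 : (2 * (4 ^ k * (2 * m + 1)) + 1 : ℤ) ≠ 0 := by omega
      have h6 : 1 ≤ |(2 * (4 ^ k * (2 * m + 1)) + 1 : ℤ)| := Int.one_le_abs h5
      rw [hi2, abs_mul, abs_of_pos h4] at hi
      nlinarith
    · rw [four_pow_split hj] at h
      exact ⟨j, m + 4 ^ (J - j - 1), by linear_combination h⟩
  · rintro ⟨j, m, h⟩
    have hj : j < J := by
      by_contra hj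
      rw [not_lt] at hj
      have h5 : (2 * m + 1 : ℤ) ≠ 0 := by omega
      have h6 : 1 ≤ |(2 * m + 1 : ℤ)| := Int.one_le_abs h5
      have h7 : (4 : ℤ) ^ J ≤ 4 ^ j := pow_le_pow_right₀ (by norm_num) hj
      have h8 : |i| = 2 * 4 ^ j * |(2 * m + 1 : ℤ)| := by
        rw [h, abs_mul, abs_of_pos (by positivity : (0 : ℤ) < 2 * 4 ^ j)]
      nlinarith
    rw [h, four_pow_split hj]
    exact ⟨j, m - 4 ^ (J - j - 1), by ring⟩

theorem coeff_tt_mul (m : ℤ) (p : R) (k : ℤ) : (tt m * p).coeff k = p.coeff (k - m) := by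
  have := AddMonoidAlgebra.coeff_single_mul_eq_mul_coeff (r := (1 : ℤ)) (x := p) (m := m) (m₁ := k)
    (k - m) (by intro a _; constructor <;> intro h <;> omega)
  rw [one_mul] at this
  exact this

/-- the Laurent polynomials without monomials of exponent in `C` -/
def Sb : AddSubgroup R where
  carrier := {p | ∀ k, inC k → p.coeff k = 0}
  add_mem' := by
    intro p q hp hq k hk
    simp [hp k hk, hq k hk]
  zero_mem' := by intro k _; simp
  neg_mem' := by
    intro p hp k hk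
    simp [hp k hk]

/-- those of them with even constant coefficient -/
def Ss : AddSubgroup R where
  carrier := {p | (∀ k, inC k → p.coeff k = 0) ∧ (2 : ℤ) ∣ p.coeff 0}
  add_mem' := by
    rintro p q ⟨hp, hp'⟩ ⟨hq, hq'⟩
    refine ⟨fun k hk => by simp [hp k hk, hq k hk], ?_⟩
    simpa using dvd_add hp' hq'
  zero_mem' := ⟨by intro k _; simp, by simp⟩
  neg_mem' := by
    rintro p ⟨hp, hp'⟩
    exact ⟨fun k hk => by simp [hp k hk], by simpa using hp'⟩

theorem mem_Sb {p : R} : p ∈ Sb ↔ ∀ k, inC k → p.coeff k = 0 := Iff.rfl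
theorem mem_Ss {p : R} : p ∈ Ss ↔ (∀ k, inC k → p.coeff k = 0) ∧ (2 : ℤ) ∣ p.coeff 0 := Iff.rfl

theorem Ss_le : Ss ≤ Sb := fun _ h => h.1

theorem invert_mem {p : R} : invert p ∈ Ss ↔ p ∈ Ss := by
  simp only [mem_Ss, invert_apply, neg_zero]
  refine and_congr ⟨fun h k hk => ?_, fun h k hk => h _ (inC_neg hk)⟩ Iff.rfl
  have := h (-k) (inC_neg hk)
  rwa [neg_neg] at this

/-- If `p (t ^ k - t ^ (-k)) ∈ S'` for `k = 1, 2, 3, 4` then `p = 0`. -/
theorem eq_zero_of (p : R) (h : ∀ k : ℕ, k ∈ Finset.Icc 1 4 → p * (tt k - tt (-k)) ∈ Ss) :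
    p = 0 := by
  by_contra hp
  have hne : p.coeff.support.Nonempty := by
    rw [Finsupp.support_nonempty_iff]
    intro h0
    apply hp
    ext a
    rw [h0]; simp
  set M := p.coeff.support.max' hne with hM
  have hMm : p.coeff M ≠ 0 := by
    have := p.coeff.support.max'_mem hne
    rwa [Finsupp.mem_support_iff] at this
  have hgt : ∀ k, M < k → p.coeff k = 0 := by
    intro k hk
    by_contra h0
    have := p.coeff.support.le_max' k (Finsupp.mem_support_iff.2 h0)
    omega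
  obtain ⟨k, hk, hk2⟩ : ∃ k : ℕ, k ∈ Finset.Icc 1 4 ∧ (M + k) % 4 = 2 := by
    have h4 : M % 4 = 0 ∨ M % 4 = 1 ∨ M % 4 = 2 ∨ M % 4 = 3 := by omega
    rcases h4 with h4 | h4 | h4 | h4
    · exact ⟨2, by simp, by push_cast; omega⟩
    · exact ⟨1, by simp, by push_cast; omega⟩
    · exact ⟨4, by simp, by push_cast; omega⟩
    · exact ⟨3, by simp, by push_cast; omega⟩
  have h1 := (h k hk).1 (M + k) (inC_of_mod hk2)
  have e : p * (tt k - tt (-k)) = tt k * p - tt (-k) * p := by ring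
  rw [e] at h1
  have h2 : (tt k * p - tt (-k) * p).coeff (M + k) = p.coeff M - p.coeff (M + k + k) := by
    rw [AddMonoidAlgebra.coeff_sub, Finsupp.sub_apply, coeff_tt_mul, coeff_tt_mul]
    congr 2 <;> ring
  have hk1 := (Finset.mem_Icc.1 hk).1
  rw [h2, hgt (M + k + k) (by omega), sub_zero] at h1
  exact hMm h1

/-- Units of `ℤ[t, t⁻¹]` with nonzero constant coefficient are `±1`. -/
theorem unit_eq {u : R} (hu : IsUnit u) (h0 : u.coeff 0 ≠ 0) : u = 1 ∨ u = -1 := by
  obtain ⟨v, hv⟩ := hu.exists_right_inv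
  obtain ⟨n, P, hP⟩ := LaurentPolynomial.exists_T_pow u
  obtain ⟨m, Q, hQ⟩ := LaurentPolynomial.exists_T_pow v
  have hPQ : P * Q = Polynomial.X ^ (n + m) := by
    apply Polynomial.toLaurent_injective
    rw [map_mul, hP, hQ, Polynomial.toLaurent_X_pow, Nat.cast_add, LaurentPolynomial.T_add]
    linear_combination (LaurentPolynomial.T n * LaurentPolynomial.T m : R) * hv
  have hdvd : P ∣ Polynomial.X ^ (n + m) := ⟨Q, hPQ.symm⟩
  obtain ⟨i, -, hi⟩ := (dvd_prime_pow Polynomial.prime_X _).1 hdvd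
  obtain ⟨w, hw⟩ := hi.symm
  obtain ⟨r, hr, hr2⟩ := Polynomial.isUnit_iff.1 w.isUnit
  have hPe : P = Polynomial.X ^ i * Polynomial.C r := by rw [hr2, hw]
  have hue : u = tt (-n + i) * LaurentPolynomial.C r := by
    have h1 : u * tt n = tt i * LaurentPolynomial.C r := by
      have : u * tt n = Polynomial.toLaurent P := hP.symm
      rw [this, hPe, map_mul, Polynomial.toLaurent_X_pow, Polynomial.toLaurent_C]
    rw [Ga.tt_add]
    linear_combination (tt (-n)) * h1 - u * Ga.tt_neg_mul (n : ℤ)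
  have hin : (-n + i : ℤ) = 0 := by
    by_contra hne
    apply h0
    rw [hue, coeff_tt_mul, LaurentPolynomial.C_apply, if_neg]
    omega
  rw [hin, Ga.tt_zero, one_mul] at hue
  rcases Int.isUnit_iff.1 hr with rfl | rfl
  · left; rw [hue]; simp
  · right; rw [hue]; simp

end Pool.Agent.R721.Cond
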