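import Mathlib
import Pool.Agent.R721.Cond.Sets

/-! Finitely many relations and non-relations pin down the marking of `Γ / Z(S')`. -/

namespace Pool.Agent.R721.Cond

open LaurentPolynomial
open scoped commutatorElement

namespace Ga

/-- the exponent homomorphism -/
noncomputable def nH : Ga →* Multiplicative ℤ where
  toFun g := Multiplicative.ofAdd g.n
  map_one' := rfl
  map_mul' _ _ := rfl

theorem pow_n (g : Ga) (k : ℕ) : (g ^ k).n = k * g.n := by
  induction k with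
  | zero => simp
  | succ k ih => rw [pow_succ, mul_n, ih]; push_cast; ring

theorem zpow_n (g : Ga) (k : ℤ) : (g ^ k).n = k * g.n := by
  rcases Int.eq_nat_or_neg k with ⟨m, rfl | rfl⟩
  · rw [zpow_natCast, pow_n]
  · rw [zpow_neg, zpow_natCast, inv_n, pow_n]; ring

theorem mul_mem_a {S : AddSubgroup R} {U V : Ga} (h : ⁅U, V⁆ ∈ Z S) :
    (U * V).a = (V * U).a ∧ (U * V).b = (V * U).b := by
  have e : U * V = ⁅U, V⁆ * (V * U) := by
    rw [commutatorElement_def]; group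
  constructor
  · have := congrArg Ga.a e
    rw [mul_a (⁅U, V⁆), h.1, zero_mul, add_zero] at this
    exact this
  · have := congrArg Ga.b e
    rw [mul_b (⁅U, V⁆), h.2.1, h.2.2.1, tt_zero, one_mul, add_zero] at this
    exact this

theorem comm_of_central {z : Ga} (h1 : z.a = 0) (h2 : z.b = 0) (h3 : z.n = 0) (g : Ga) :
    ⁅z, g⁆ = 1 := by
  rw [commutatorElement_eq_one_iff_mul_comm]
  exact (central h1 h2 h3 g).symm

/-- Step 1. -/
theorem step1 {S : AddSubgroup R} {T X Y : Ga} (h : ⁅X, T * X * T⁻¹⁆ ∈ Z S)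
    (h3 : ⁅⁅T, X⁆, Y⁆ ∉ Z S) : X.n = 0 := by
  by_contra hn
  apply h3
  set X' := T * X * T⁻¹ with hX'
  have hn' : X'.n = X.n := by simp [hX']
  obtain ⟨ea, eb⟩ := mul_mem_a h
  rw [mul_a X X', mul_a X' X, hn'] at ea
  rw [mul_b X X', mul_b X' X, hn'] at eb
  have hne : (1 - tt X.n : R) ≠ 0 := by
    intro h0
    apply hn
    apply tt_inj
    rw [tt_zero]; linear_combination -h0
  have ha : X'.a - X.a = 0 := by
    have : (X'.a - X.a) * (1 - tt X.n) = 0 := by linear_combination ea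
    exact (mul_eq_zero.1 this).resolve_right hne
  have hb : X'.b - X.b = 0 := by
    have : (X'.b - X.b) * (1 - tt X.n) = 0 := by linear_combination -eb
    exact (mul_eq_zero.1 this).resolve_right hne
  have e : ⁅T, X⁆ = X' * X⁻¹ := by rw [commutatorElement_def]
  have hi := tt_neg_mul X.n
  have := comm_of_central (z := ⁅T, X⁆) (by
      rw [e, mul_a, inv_a, inv_n]
      linear_combination (tt (-X.n)) * ha) (by
      rw [e, mul_b, inv_b, hn']
      linear_combination hb - X.b * hi) (by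
      rw [e, mul_n, inv_n, hn']; ring) Y
  rw [this]
  exact (Z S).one_mem

theorem comm_formula (U V : Ga) (hU : U.n = 0) (hV : V.n = 0) :
    ⁅U, V⁆ = ⟨0, 0, U.a * V.b - V.a * U.b, 0⟩ := by
  rw [commutatorElement_def, mul_inv_eq_iff_eq_mul, mul_inv_eq_iff_eq_mul]
  ext1
  · simp [hU, hV]; ring
  · simp [hU, hV]; ring
  · simp; ring
  · simp [hU, hV]

theorem conj_a (g X : Ga) (hX : X.n = 0) : (g * X * g⁻¹).a = X.a * tt (-g.n) := by
  simp only [mul_a, inv_a, inv_n, hX, tt_zero]; ring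

theorem conj_b (g X : Ga) (hX : X.n = 0) : (g * X * g⁻¹).b = tt g.n * X.b := by
  simp only [mul_b, inv_b, mul_n, hX, add_zero]
  linear_combination (-g.b) * tt_mul_neg g.n

theorem conj_n (g X : Ga) (hX : X.n = 0) : (g * X * g⁻¹).n = 0 := by
  simp [hX]

/-- Step 4. -/
theorem step4 {T X : Ga} (hX : X.n = 0) (hT : T.n = 1 ∨ T.n = -1)
    (h : ∀ k : ℕ, k ∈ Finset.Icc 1 4 → ⁅X, T ^ k * X * (T ^ k)⁻¹⁆ ∈ Z Ss) :
    X.a = 0 ∨ X.b = 0 := by
  rw [← mul_eq_zero]
  apply eq_zero_of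
  intro k hk
  have h1 := (h k hk).2.2.2
  rw [comm_formula _ _ hX (conj_n _ _ hX), conj_a _ _ hX, conj_b _ _ hX, pow_n] at h1
  simp only at h1
  rcases hT with hT | hT
  · rw [hT, mul_one] at h1
    have e : X.a * X.b * (tt k - tt (-k)) = X.a * (tt k * X.b) - X.a * tt (-k) * X.b := by ring
    rw [e]; exact h1
  · rw [hT, mul_neg, mul_one, neg_neg] at h1
    have e : X.a * X.b * (tt k - tt (-k)) =
      -(X.a * (tt (-k) * X.b) - X.a * tt k * X.b) := by ring
    rw [e]; exact Ss.neg_mem h1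

/-- Step 3. -/
theorem step3 {S : AddSubgroup R} {T X Y : Ga} (hX : X.n = 0) (hY : Y.n = 0)
    (hgen : ∀ g : Ga, ∃ w, (mark T X Y w)⁻¹ * g ∈ Z S) : T.n = 1 ∨ T.n = -1 := by
  obtain ⟨w, hw⟩ := hgen gt
  have h1 : (mark T X Y w).n = 1 := by
    have := hw.2.2.1
    rw [mul_n, inv_n] at this
    have h2 : gt.n = 1 := rfl
    omega
  let K : Subgroup Ga :=
    { carrier := {g | T.n ∣ g.n}
      mul_mem' := by intro x y hx hy; exact dvd_add hx hy
      one_mem' := dvd_zero _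
      inv_mem' := by intro x hx; exact (dvd_neg (a := T.n) (b := x.n)).2 hx }
  have h2 : mark T X Y w ∈ K := mark_mem K (dvd_refl _) (by
    change T.n ∣ X.n
    rw [hX]; exact dvd_zero _) (by
    change T.n ∣ Y.n
    rw [hY]; exact dvd_zero _) w
  have h3 : T.n ∣ 1 := by rw [← h1]; exact h2
  exact Int.isUnit_iff.1 (isUnit_of_dvd_one h3)

/-- Step 5, first entries. -/
theorem step5a {S : AddSubgroup R} {T X Y : Ga} (hX : X.n = 0) (hY : Y.n = 0)
    (hT : T.n = 1 ∨ T.n = -1) (hgen : ∀ g : Ga, ∃ w, (mark T X Y w)⁻¹ * g ∈ Z S)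
    (I : Ideal R) (hXI : X.a ∈ I) (hYI : Y.a ∈ I) : (1 : R) ∈ I := by
  let Dg : Subgroup Ga :=
    { carrier := {g | g.n = 0 ∧ g.a ∈ I}
      mul_mem' := by
        rintro x y ⟨hx, hx'⟩ ⟨hy, hy'⟩
        refine ⟨by rw [mul_n, hx, hy]; rfl, ?_⟩
        rw [mul_a]; exact I.add_mem hy' (I.mul_mem_right _ hx')
      one_mem' := ⟨rfl, I.zero_mem⟩
      inv_mem' := by
        rintro x ⟨hx, hx'⟩
        refine ⟨by rw [inv_n, hx]; rfl, ?_⟩
        rw [inv_a]; exact I.neg_mem (I.mul_mem_right _ hx') }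
  have hDn : Dg.Normal := ⟨by
    rintro x ⟨hx, hx'⟩ g
    refine ⟨conj_n g x hx, ?_⟩
    rw [conj_a g x hx]
    exact I.mul_mem_right _ hx'⟩
  obtain ⟨w, hw⟩ := hgen gx
  have hXD : X ∈ Dg := ⟨hX, hXI⟩
  have hYD : Y ∈ Dg := ⟨hY, hYI⟩
  have h1 : mark T X Y w ∈ Subgroup.zpowers T ⊔ Dg :=
    mark_mem _ (Subgroup.mem_sup_left (Subgroup.mem_zpowers T))
      (Subgroup.mem_sup_right hXD) (Subgroup.mem_sup_right hYD) w
  have h2' : (mark T X Y w)⁻¹ * gx ∈ Dg :=
    ⟨hw.2.2.1, by rw [hw.1]; exact I.zero_mem⟩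
  have h2 : (mark T X Y w)⁻¹ * gx ∈ Subgroup.zpowers T ⊔ Dg := Subgroup.mem_sup_right h2'
  have h3 : gx ∈ Subgroup.zpowers T ⊔ Dg := by
    have := Subgroup.mul_mem _ h1 h2
    rwa [mul_inv_cancel_left] at this
  obtain ⟨y, ⟨k, rfl⟩, z, hz, hyz⟩ := Subgroup.mem_sup_of_normal_right.1 h3
  simp only at hyz
  have h4 : k = 0 := by
    have := congrArg Ga.n hyz
    rw [mul_n, zpow_n, hz.1] at this
    have h5 : gx.n = 0 := rfl
    rw [h5, add_zero] at this
    rcases hT with hT | hT <;> rw [hT] at this <;> omega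
  rw [h4, zpow_zero, one_mul] at hyz
  rw [hyz] at hz
  exact hz.2

/-- Step 5, second entries. -/
theorem step5b {S : AddSubgroup R} {T X Y : Ga} (hX : X.n = 0) (hY : Y.n = 0)
    (hT : T.n = 1 ∨ T.n = -1) (hgen : ∀ g : Ga, ∃ w, (mark T X Y w)⁻¹ * g ∈ Z S)
    (I : Ideal R) (hXI : X.b ∈ I) (hYI : Y.b ∈ I) : (1 : R) ∈ I := by
  let Dg : Subgroup Ga :=
    { carrier := {g | g.n = 0 ∧ g.b ∈ I}
      mul_mem' := by
        rintro x y ⟨hx, hx'⟩ ⟨hy, hy'⟩
        refine ⟨by rw [mul_n, hx, hy]; rfl, ?_⟩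
        rw [mul_b]; exact I.add_mem (I.mul_mem_left _ hy') hx'
      one_mem' := ⟨rfl, I.zero_mem⟩
      inv_mem' := by
        rintro x ⟨hx, hx'⟩
        refine ⟨by rw [inv_n, hx]; rfl, ?_⟩
        rw [inv_b]; exact I.neg_mem (I.mul_mem_left _ hx') }
  have hDn : Dg.Normal := ⟨by
    rintro x ⟨hx, hx'⟩ g
    refine ⟨conj_n g x hx, ?_⟩
    rw [conj_b g x hx]
    exact I.mul_mem_left _ hx'⟩
  obtain ⟨w, hw⟩ := hgen gy
  have hXD : X ∈ Dg := ⟨hX, hXI⟩
  have hYD : Y ∈ Dg := ⟨hY, hYI⟩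
  have h1 : mark T X Y w ∈ Subgroup.zpowers T ⊔ Dg :=
    mark_mem _ (Subgroup.mem_sup_left (Subgroup.mem_zpowers T))
      (Subgroup.mem_sup_right hXD) (Subgroup.mem_sup_right hYD) w
  have h2' : (mark T X Y w)⁻¹ * gy ∈ Dg :=
    ⟨hw.2.2.1, by rw [hw.2.1]; exact I.zero_mem⟩
  have h2 : (mark T X Y w)⁻¹ * gy ∈ Subgroup.zpowers T ⊔ Dg := Subgroup.mem_sup_right h2'
  have h3 : gy ∈ Subgroup.zpowers T ⊔ Dg := by
    have := Subgroup.mul_mem _ h1 h2
    rwa [mul_inv_cancel_left] at this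
  obtain ⟨y, ⟨k, rfl⟩, z, hz, hyz⟩ := Subgroup.mem_sup_of_normal_right.1 h3
  simp only at hyz
  have h4 : k = 0 := by
    have := congrArg Ga.n hyz
    rw [mul_n, zpow_n, hz.1] at this
    have h5 : gy.n = 0 := rfl
    rw [h5, add_zero] at this
    rcases hT with hT | hT <;> rw [hT] at this <;> omega
  rw [h4, zpow_zero, one_mul] at hyz
  rw [hyz] at hz
  exact hz.2

/-- A homomorphism is good if it reflects and preserves `Z(S')`. -/
def Good (Ψ : Ga →* Ga) : Prop := ∀ g, Ψ g ∈ Z Ss ↔ g ∈ Z Ss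

theorem good_comp {Ψ Φ : Ga →* Ga} (h1 : Good Ψ) (h2 : Good Φ) : Good (Ψ.comp Φ) := fun g =>
  (h1 (Φ g)).trans (h2 g)

theorem good_E2 : Good E2 := by
  intro g
  simp only [mem_Z]
  have e1 : (E2 g).a = invert g.a := rfl
  have e2 : (E2 g).b = invert g.b := rfl
  have e3 : (E2 g).c = invert g.c := rfl
  have e4 : (E2 g).n = -g.n := rfl
  rw [e1, e2, e3, e4, invert_mem, neg_eq_zero, EmbeddingLike.map_eq_zero_iff,
    EmbeddingLike.map_eq_zero_iff]

theorem good_E3 : Good E3 := by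
  intro g
  simp only [mem_Z]
  have e1 : (E3 g).a = tt (-g.n) * g.b := rfl
  have e2 : (E3 g).b = tt (-g.n) * g.a := rfl
  have e3 : (E3 g).c = tt (-g.n) * g.a * g.b - g.c := rfl
  have e4 : (E3 g).n = -g.n := rfl
  rw [e1, e2, e3, e4]
  constructor
  · rintro ⟨h1, h2, h3, h4⟩
    have h3' : g.n = 0 := by omega
    rw [h3', neg_zero, tt_zero, one_mul] at h1 h2
    rw [h1, h2] at h4
    refine ⟨h2, h1, h3', ?_⟩
    have : g.c = -(tt (-g.n) * 0 * 0 - g.c) := by ring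
    rw [this]; exact Ss.neg_mem h4
  · rintro ⟨h1, h2, h3, h4⟩
    rw [h1, h2, h3]
    refine ⟨by ring, by ring, by ring, ?_⟩
    have : (tt (-0) * 0 * 0 - g.c : R) = -g.c := by ring
    rw [this]; exact Ss.neg_mem h4

theorem good_Psi {a d e f g c1 c2 : R} (h : a * d = 1 ∨ a * d = -1) :
    Good (Psi a d e f g c1 c2) := by
  intro x
  have had : a * d ≠ 0 := by
    rcases h with h | h <;> rw [h]
    · exact one_ne_zero
    · exact neg_ne_zero.2 one_ne_zero
  have ha : a ≠ 0 := left_ne_zero_of_mul had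
  have hd : d ≠ 0 := right_ne_zero_of_mul had
  simp only [mem_Z]
  have e1 : (Psi a d e f g c1 c2 x).a = a * x.a + e * D (tt x.n) := rfl
  have e2 : (Psi a d e f g c1 c2 x).b = d * x.b + f * D (tt x.n) := rfl
  have e3 : (Psi a d e f g c1 c2 x).c = a * d * x.c + e * d * D x.b + f * a * D x.a
      + (x.n : R) * g + e * f * D (D (tt x.n)) + c1 * au x.a + c2 * au x.b := rfl
  have e4 : (Psi a d e f g c1 c2 x).n = x.n := rfl
  rw [e1, e2, e3, e4]
  have key : x.a = 0 → x.b = 0 → x.n = 0 → (a * d * x.c + e * d * D x.b + f * a * D x.a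
      + (x.n : R) * g + e * f * D (D (tt x.n)) + c1 * au x.a + c2 * au x.b ∈ Ss ↔ x.c ∈ Ss) := by
    intro h1 h2 h3
    rw [h1, h2, h3, tt_zero, D_one, D_zero, map_zero]
    have : a * d * x.c + e * d * 0 + f * a * 0 + ((0 : ℤ) : R) * g + e * f * 0 + c1 * 0 + c2 * 0
      = a * d * x.c := by push_cast; ring
    rw [this]
    rcases h with h | h <;> rw [h]
    · rw [one_mul]
    · rw [neg_one_mul]; exact neg_mem_iff
  constructor
  · rintro ⟨h1, h2, h3, h4⟩
    have h1' : x.a = 0 := by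
      rw [h3, tt_zero, D_one, mul_zero, add_zero] at h1
      exact (mul_eq_zero.1 h1).resolve_left ha
    have h2' : x.b = 0 := by
      rw [h3, tt_zero, D_one, mul_zero, add_zero] at h2
      exact (mul_eq_zero.1 h2).resolve_left hd
    exact ⟨h1', h2', h3, (key h1' h2' h3).1 h4⟩
  · rintro ⟨h1, h2, h3, h4⟩
    refine ⟨?_, ?_, h3, (key h1 h2 h3).2 h4⟩
    · rw [h1, h3, tt_zero, D_one]; ring
    · rw [h2, h3, tt_zero, D_one]; ring

/-- the unit from the commutator -/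
theorem unit_step {a d : R} (ha : IsUnit a) (hd : IsUnit d) (h1 : a * d ∉ Ss)
    (h2 : a * d + a * d ∈ Ss) : a * d = 1 ∨ a * d = -1 := by
  apply unit_eq (ha.mul hd)
  intro h0
  apply h1
  refine ⟨fun k hk => ?_, by rw [h0]; exact dvd_zero _⟩
  have := h2.1 k hk
  rw [AddMonoidAlgebra.coeff_add, Finsupp.add_apply] at this
  omega

theorem one_mem_span {p : R} (h : (1 : R) ∈ Ideal.span {p}) : IsUnit p := by
  rw [Ideal.mem_span_singleton] at h
  exact isUnit_of_dvd_one h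

/-- The main step: a generating triple of `Γ / Z(S')` satisfying the finitely many conditions
is the image of the standard one under a good homomorphism. -/
theorem key {T X Y : Ga} (hgen : ∀ g : Ga, ∃ w, (mark T X Y w)⁻¹ * g ∈ Z Ss)
    (h1 : ∀ k : ℕ, k ∈ Finset.Icc 1 4 → ⁅X, T ^ k * X * (T ^ k)⁻¹⁆ ∈ Z Ss)
    (h2 : ∀ k : ℕ, k ∈ Finset.Icc 1 4 → ⁅Y, T ^ k * Y * (T ^ k)⁻¹⁆ ∈ Z Ss)
    (h3 : ⁅⁅T, X⁆, Y⁆ ∉ Z Ss) (h4 : ⁅⁅T, Y⁆, X⁆ ∉ Z Ss)
    (h5 : ⁅X, Y⁆ ^ 2 ∈ Z Ss) (h6 : ⁅X, Y⁆ ∉ Z Ss) :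
    ∃ Ψ : Ga →* Ga, Good Ψ ∧ Ψ gt = T ∧ Ψ gx = X ∧ Ψ gy = Y := by
  have hX : X.n = 0 := step1 (T := T) (Y := Y) (by simpa using h1 1 (by simp)) h3
  have hY : Y.n = 0 := step1 (T := T) (Y := X) (by simpa using h2 1 (by simp)) h4
  have hT := step3 hX hY hgen
  have hXab := step4 hX hT h1
  have hYab := step4 hY hT h2
  have hc := comm_formula X Y hX hY
  have h6' : X.a * Y.b - Y.a * X.b ∉ Ss := by
    intro h
    apply h6
    rw [hc]
    exact ⟨rfl, rfl, rfl, h⟩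
  have h5' : (X.a * Y.b - Y.a * X.b) + (X.a * Y.b - Y.a * X.b) ∈ Ss := by
    have := h5.2.2.2
    rw [hc, pow_two, mul_c] at this
    simpa using this
  rcases hXab with hXa | hXb
  · -- X.a = 0
    rcases hYab with hYa | hYb
    · exfalso
      have := step5a hX hY hT hgen ⊥ (by rw [hXa]; exact Ideal.zero_mem _)
        (by rw [hYa]; exact Ideal.zero_mem _)
      exact one_ne_zero ((Submodule.mem_bot R).1 this)
    · -- X = (0, b), Y = (c, 0)
      have u1 : IsUnit Y.a := one_mem_span (step5a hX hY hT hgen (Ideal.span {Y.a})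
        (by rw [hXa]; exact Ideal.zero_mem _) (Ideal.mem_span_singleton_self _))
      have u2 : IsUnit X.b := one_mem_span (step5b hX hY hT hgen (Ideal.span {X.b})
        (Ideal.mem_span_singleton_self _) (by rw [hYb]; exact Ideal.zero_mem _))
      rw [hXa, zero_mul, zero_sub] at h6' h5'
      have hu : Y.a * X.b = 1 ∨ Y.a * X.b = -1 := unit_step u1 u2
        (fun h => h6' (Ss.neg_mem h)) (by
          have := Ss.neg_mem h5'
          have e : -(-(Y.a * X.b) + -(Y.a * X.b)) = Y.a * X.b + Y.a * X.b := by ring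
          rwa [e] at this)
      rcases hT with hT | hT
      · -- Ψ = Psi ∘ E3 ∘ E2
        refine ⟨((Psi Y.a X.b T.a T.b T.c Y.c X.c).comp E3).comp E2,
          good_comp (good_comp (good_Psi hu) good_E3) good_E2, ?_, ?_, ?_⟩
        · rw [MonoidHom.comp_apply, MonoidHom.comp_apply, E2_gt, map_inv, E3_gt, inv_inv, Psi_gt,
            ← hT]
        · rw [MonoidHom.comp_apply, MonoidHom.comp_apply, E2_gx, E3_gx, Psi_gy]
          ext1 <;> simp [hXa, hX]
        · rw [MonoidHom.comp_apply, MonoidHom.comp_apply, E2_gy, E3_gy, Psi_gx]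
          ext1 <;> simp [hYb, hY]
      · refine ⟨(Psi Y.a X.b (T⁻¹).a (T⁻¹).b (T⁻¹).c Y.c X.c).comp E3,
          good_comp (good_Psi hu) good_E3, ?_, ?_, ?_⟩
        · rw [MonoidHom.comp_apply, E3_gt, map_inv, Psi_gt]
          have : (⟨(T⁻¹).a, (T⁻¹).b, (T⁻¹).c, 1⟩ : Ga) = T⁻¹ := by
            have hn : (T⁻¹).n = 1 := by rw [inv_n, hT]; rfl
            rw [← hn]
          rw [this, inv_inv]
        · rw [MonoidHom.comp_apply, E3_gx, Psi_gy]
          ext1 <;> simp [hXa, hX]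
        · rw [MonoidHom.comp_apply, E3_gy, Psi_gx]
          ext1 <;> simp [hYb, hY]
  · rcases hYab with hYa | hYb
    · -- X = (a, 0), Y = (0, d)
      have u1 : IsUnit X.a := one_mem_span (step5a hX hY hT hgen (Ideal.span {X.a})
        (Ideal.mem_span_singleton_self _) (by rw [hYa]; exact Ideal.zero_mem _))
      have u2 : IsUnit Y.b := one_mem_span (step5b hX hY hT hgen (Ideal.span {Y.b})
        (by rw [hXb]; exact Ideal.zero_mem _) (Ideal.mem_span_singleton_self _))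
      rw [hXb, mul_zero, sub_zero] at h6' h5'
      have hu : X.a * Y.b = 1 ∨ X.a * Y.b = -1 := unit_step u1 u2 h6' h5'
      rcases hT with hT | hT
      · refine ⟨Psi X.a Y.b T.a T.b T.c X.c Y.c, good_Psi hu, ?_, ?_, ?_⟩
        · rw [Psi_gt, ← hT]
        · rw [Psi_gx]
          ext1 <;> simp [hXb, hX]
        · rw [Psi_gy]
          ext1 <;> simp [hYa, hY]
      · refine ⟨(Psi X.a Y.b (T⁻¹).a (T⁻¹).b (T⁻¹).c X.c Y.c).comp E2,
          good_comp (good_Psi hu) good_E2, ?_, ?_, ?_⟩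
        · rw [MonoidHom.comp_apply, E2_gt, map_inv, Psi_gt]
          have : (⟨(T⁻¹).a, (T⁻¹).b, (T⁻¹).c, 1⟩ : Ga) = T⁻¹ := by
            have hn : (T⁻¹).n = 1 := by rw [inv_n, hT]; rfl
            rw [← hn]
          rw [this, inv_inv]
        · rw [MonoidHom.comp_apply, E2_gx, Psi_gx]
          ext1 <;> simp [hXb, hX]
        · rw [MonoidHom.comp_apply, E2_gy, Psi_gy]
          ext1 <;> simp [hYa, hY]
    · exfalso
      have := step5b hX hY hT hgen ⊥ (by rw [hXb]; exact Ideal.zero_mem _)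
        (by rw [hYb]; exact Ideal.zero_mem _)
      exact one_ne_zero ((Submodule.mem_bot R).1 this)

end Ga

end Pool.Agent.R721.Cond
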