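import Mathlib
import Pool.Agent.R721.Cond.Key

/-! The two groups. -/

namespace Pool.Agent.R721.Cond

open LaurentPolynomial
open scoped commutatorElement

namespace Ga

/-- the condensed group -/
abbrev GB : Type := Ga ⧸ Z Sb
/-- the group that is not condensed -/
abbrev GS : Type := Ga ⧸ Z Ss

/-- the marking of `Γ / Z(S)` by a triple in `Γ` -/
noncomputable def qm (S : AddSubgroup R) (T X Y : Ga) : FreeGroup (Fin 3) →* (Ga ⧸ Z S) :=
  (QuotientGroup.mk' (Z S)).comp (mark T X Y)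

theorem qm_eq_one {S : AddSubgroup R} {T X Y : Ga} (w : FreeGroup (Fin 3)) :
    qm S T X Y w = 1 ↔ mark T X Y w ∈ Z S := by
  change (QuotientGroup.mk (mark T X Y w) : Ga ⧸ Z S) = 1 ↔ _
  exact QuotientGroup.eq_one_iff _

theorem qm_std_surjective (S : AddSubgroup R) : Function.Surjective (qm S gt gx gy) :=
  (QuotientGroup.mk'_surjective _).comp mark_surjective

theorem exists_qm {S : AddSubgroup R} (ψ : FreeGroup (Fin 3) →* (Ga ⧸ Z S)) :
    ∃ T X Y : Ga, ψ = qm S T X Y := by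
  obtain ⟨T, hT⟩ := QuotientGroup.mk'_surjective (Z S) (ψ (FreeGroup.of 0))
  obtain ⟨X, hX⟩ := QuotientGroup.mk'_surjective (Z S) (ψ (FreeGroup.of 1))
  obtain ⟨Y, hY⟩ := QuotientGroup.mk'_surjective (Z S) (ψ (FreeGroup.of 2))
  refine ⟨T, X, Y, FreeGroup.ext_hom _ _ fun i => ?_⟩
  fin_cases i
  · simp [qm, ← hT]
  · simp [qm, ← hX]
  · simp [qm, ← hY]

/-- shift endomorphism -/
noncomputable def Sh (m : ℤ) : Ga →* Ga where
  toFun x := ⟨x.a, tt (-m) * x.b, tt (-m) * x.c, x.n⟩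
  map_one' := by ext1 <;> simp
  map_mul' x y := by
    ext1
    · simp
    · simp only [mul_b]; ring
    · simp only [mul_c]; ring
    · simp

theorem Sh_surjective (m : ℤ) : Function.Surjective (Sh m) := by
  intro g
  refine ⟨⟨g.a, tt m * g.b, tt m * g.c, g.n⟩, ?_⟩
  have h := tt_neg_mul m
  ext1
  · rfl
  · change tt (-m) * (tt m * g.b) = g.b
    linear_combination g.b * h
  · change tt (-m) * (tt m * g.c) = g.c
    linear_combination g.c * h
  · rfl

theorem sh_mem {J : ℕ} {p : R} (hp : ∀ k, p.coeff k ≠ 0 → |k| < 4 ^ J) :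
    tt (-(4 ^ J : ℤ)) * p ∈ Sb ↔ p ∈ Sb := by
  rw [mem_Sb, mem_Sb]
  constructor
  · intro h k hk
    by_contra h0
    have := h (k - 4 ^ J) ((inC_shift (hp k h0)).2 hk)
    rw [coeff_tt_mul] at this
    apply h0
    rw [← this]; congr 1; ring
  · intro h k hk
    rw [coeff_tt_mul]
    by_contra h0
    have h1 := hp _ h0
    apply h0
    apply h
    rw [← inC_shift h1]
    have e : k - -(4 ^ J : ℤ) - 4 ^ J = k := by ring
    rw [e]; exact hk

theorem condensed_GB : Condensed GB := by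
  classical
  refine condensed_of' 3 (by norm_num) (qm Sb gt gx gy) (qm_std_surjective Sb) ?_
  intro W
  let F : Finset ℤ := W.biUnion fun w => ((mark gt gx gy w).c).coeff.support
  set J : ℕ := F.sup Int.natAbs with hJ
  have hb : ∀ w ∈ W, ∀ k, ((mark gt gx gy w).c).coeff k ≠ 0 → |k| < 4 ^ J := by
    intro w hw k hk
    have hkF : k ∈ F := Finset.mem_biUnion.2 ⟨w, hw, Finsupp.mem_support_iff.2 hk⟩
    have h1 : k.natAbs ≤ J := Finset.le_sup (f := Int.natAbs) hkF
    have h2 : J < 4 ^ J := Nat.lt_pow_self (by norm_num)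
    rw [Int.abs_eq_natAbs]
    exact_mod_cast lt_of_le_of_lt h1 h2
  refine ⟨(QuotientGroup.mk' (Z Sb)).comp ((Sh (4 ^ J)).comp (mark gt gx gy)), ?_, ?_, ?_⟩
  · exact (QuotientGroup.mk'_surjective _).comp ((Sh_surjective _).comp mark_surjective)
  · intro w hw
    have h1 : ((QuotientGroup.mk' (Z Sb)).comp ((Sh (4 ^ J)).comp (mark gt gx gy))) w = 1 ↔
        Sh (4 ^ J) (mark gt gx gy w) ∈ Z Sb := by
      change (QuotientGroup.mk (Sh (4 ^ J) (mark gt gx gy w)) : Ga ⧸ Z Sb) = 1 ↔ _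
      exact QuotientGroup.eq_one_iff _
    rw [h1, qm_eq_one, mem_Z, mem_Z]
    have e1 : (Sh (4 ^ J) (mark gt gx gy w)).a = (mark gt gx gy w).a := rfl
    have e2 : (Sh (4 ^ J) (mark gt gx gy w)).b = tt (-(4 ^ J : ℤ)) * (mark gt gx gy w).b := rfl
    have e3 : (Sh (4 ^ J) (mark gt gx gy w)).c = tt (-(4 ^ J : ℤ)) * (mark gt gx gy w).c := rfl
    have e4 : (Sh (4 ^ J) (mark gt gx gy w)).n = (mark gt gx gy w).n := rfl
    rw [e1, e2, e3, e4, sh_mem (hb w hw)]
    have h2 : tt (-(4 ^ J : ℤ)) * (mark gt gx gy w).b = 0 ↔ (mark gt gx gy w).b = 0 := by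
      constructor
      · intro h
        have h3 := tt_mul_neg (4 ^ J : ℤ)
        linear_combination (tt (4 ^ J : ℤ)) * h - (mark gt gx gy w).b * h3
      · intro h; rw [h, mul_zero]
    rw [h2]
  · intro hk
    obtain ⟨w, hw⟩ := mark_surjective ⟨0, 0, tt (2 * 4 ^ J), 0⟩
    have h1 : w ∉ (qm Sb gt gx gy).ker := by
      rw [MonoidHom.mem_ker, qm_eq_one, hw]
      rintro ⟨-, -, -, h⟩
      have := h (2 * 4 ^ J) (inC_two_pow J)
      simp [tt] at this
    apply h1
    rw [← hk, MonoidHom.mem_ker]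
    change (QuotientGroup.mk (Sh (4 ^ J) (mark gt gx gy w)) : Ga ⧸ Z Sb) = 1
    rw [QuotientGroup.eq_one_iff, hw]
    refine ⟨rfl, ?_, rfl, ?_⟩
    · change tt (-(4 ^ J : ℤ)) * 0 = 0
      rw [mul_zero]
    · change tt (-(4 ^ J : ℤ)) * tt (2 * 4 ^ J) ∈ Sb
      rw [← tt_add]
      intro k hk
      rw [LaurentPolynomial.T_apply, if_neg]
      intro h
      apply not_inC_pow J
      have : (4 ^ J : ℤ) = k := by rw [← h]; ring
      rw [this]; exact hk

/-- the generators of `F_3` -/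
def f0 : FreeGroup (Fin 3) := FreeGroup.of 0
def f1 : FreeGroup (Fin 3) := FreeGroup.of 1
def f2 : FreeGroup (Fin 3) := FreeGroup.of 2

/-- the words -/
def wX (k : ℕ) : FreeGroup (Fin 3) := ⁅f1, f0 ^ k * f1 * (f0 ^ k)⁻¹⁆
def wY (k : ℕ) : FreeGroup (Fin 3) := ⁅f2, f0 ^ k * f2 * (f0 ^ k)⁻¹⁆
def w3 : FreeGroup (Fin 3) := ⁅⁅f0, f1⁆, f2⁆
def w4 : FreeGroup (Fin 3) := ⁅⁅f0, f2⁆, f1⁆
def w5 : FreeGroup (Fin 3) := ⁅f1, f2⁆ ^ 2
def w6 : FreeGroup (Fin 3) := ⁅f1, f2⁆

theorem mark_wX (T X Y : Ga) (k : ℕ) : mark T X Y (wX k) = ⁅X, T ^ k * X * (T ^ k)⁻¹⁆ := by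
  simp [wX, f0, f1, map_commutatorElement]
theorem mark_wY (T X Y : Ga) (k : ℕ) : mark T X Y (wY k) = ⁅Y, T ^ k * Y * (T ^ k)⁻¹⁆ := by
  simp [wY, f0, f2, map_commutatorElement]
theorem mark_w3 (T X Y : Ga) : mark T X Y w3 = ⁅⁅T, X⁆, Y⁆ := by
  simp [w3, f0, f1, f2, map_commutatorElement]
theorem mark_w4 (T X Y : Ga) : mark T X Y w4 = ⁅⁅T, Y⁆, X⁆ := by
  simp [w4, f0, f1, f2, map_commutatorElement]
theorem mark_w5 (T X Y : Ga) : mark T X Y w5 = ⁅X, Y⁆ ^ 2 := by
  simp [w5, f1, f2, map_commutatorElement]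
theorem mark_w6 (T X Y : Ga) : mark T X Y w6 = ⁅X, Y⁆ := by
  simp [w6, f1, f2, map_commutatorElement]

theorem one_not_mem : (1 : R) ∉ Ss := by
  rintro ⟨-, h⟩
  have : (1 : R).coeff 0 = 1 := by
    rw [← tt_zero, LaurentPolynomial.T_apply, if_pos rfl]
  rw [this] at h
  omega

theorem base_wX (k : ℕ) : mark gt gx gy (wX k) ∈ Z Ss := by
  have hx : gx.n = 0 := rfl
  have hb : gx.b = 0 := rfl
  rw [mark_wX, comm_formula _ _ hx (conj_n _ _ hx), conj_a _ _ hx, conj_b _ _ hx, hb]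
  refine ⟨rfl, rfl, rfl, ?_⟩
  simp only [mul_zero, sub_zero]
  exact Ss.zero_mem

theorem base_wY (k : ℕ) : mark gt gx gy (wY k) ∈ Z Ss := by
  have hx : gy.n = 0 := rfl
  have ha : gy.a = 0 := rfl
  rw [mark_wY, comm_formula _ _ hx (conj_n _ _ hx), conj_a _ _ hx, conj_b _ _ hx, ha]
  refine ⟨rfl, rfl, rfl, ?_⟩
  simp only [zero_mul, sub_zero]
  exact Ss.zero_mem

theorem base_w3 : mark gt gx gy w3 ∉ Z Ss := by
  rw [mark_w3]
  have e : ⁅gt, gx⁆ = ⟨tt (-1) - 1, 0, 0, 0⟩ := by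
    rw [commutatorElement_def]
    ext1 <;> simp [gt, gx, tt]
    ring
  rw [e, comm_formula _ _ rfl rfl]
  rintro ⟨-, -, -, h⟩
  have h1 := h.2
  have e2 : ((tt (-1) - 1) * gy.b - gy.a * 0 : R) = tt (-1) - tt 0 := by
    simp [gy, tt]
  simp only at h1
  rw [e2, AddMonoidAlgebra.coeff_sub, Finsupp.sub_apply, LaurentPolynomial.T_apply,
    LaurentPolynomial.T_apply] at h1
  norm_num at h1

theorem base_w4 : mark gt gx gy w4 ∉ Z Ss := by
  rw [mark_w4]
  have e : ⁅gt, gy⁆ = ⟨0, tt 1 - 1, 0, 0⟩ := by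
    rw [commutatorElement_def]
    ext1 <;> simp [gt, gy, tt]
    ring
  rw [e, comm_formula _ _ rfl rfl]
  rintro ⟨-, -, -, h⟩
  have h1 := h.2
  have e2 : (0 * gx.b - gx.a * (tt 1 - 1) : R) = tt 0 - tt 1 := by
    simp [gx, tt]
  simp only at h1
  rw [e2, AddMonoidAlgebra.coeff_sub, Finsupp.sub_apply, LaurentPolynomial.T_apply,
    LaurentPolynomial.T_apply] at h1
  norm_num at h1

theorem base_comm : ⁅gx, gy⁆ = ⟨0, 0, 1, 0⟩ := by
  rw [comm_formula _ _ rfl rfl]
  simp [gx, gy]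

theorem base_w6 : mark gt gx gy w6 ∉ Z Ss := by
  rw [mark_w6, base_comm]
  rintro ⟨-, -, -, h⟩
  exact one_not_mem h

theorem base_w5 : mark gt gx gy w5 ∈ Z Ss := by
  rw [mark_w5, base_comm, pow_two]
  refine ⟨by simp, by simp, rfl, ?_⟩
  have e : ((⟨0, 0, 1, 0⟩ : Ga) * ⟨0, 0, 1, 0⟩).c = (tt 0 + tt 0 : R) := by simp [tt]
  rw [e]
  constructor
  · intro k hk
    rw [AddMonoidAlgebra.coeff_add, Finsupp.add_apply, LaurentPolynomial.T_apply, if_neg]
    · rfl
    · rintro rfl; exact not_inC_zero hk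
  · rw [AddMonoidAlgebra.coeff_add, Finsupp.add_apply, LaurentPolynomial.T_apply, if_pos rfl]
    norm_num

/-- the finite set of test words -/
noncomputable def WW : Finset (FreeGroup (Fin 3)) := by
  classical
  exact (Finset.Icc 1 4).image wX ∪ (Finset.Icc 1 4).image wY ∪ {w3, w4, w5, w6}

theorem not_condensed_GS : ¬ Condensed GS := by
  classical
  refine not_condensed_of' 3 (by norm_num) (qm Ss gt gx gy) (qm_std_surjective Ss) WW ?_
  intro ψ hψ hW
  obtain ⟨T, X, Y, rfl⟩ := exists_qm ψ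
  have hW' : ∀ w ∈ WW, (mark T X Y w ∈ Z Ss ↔ mark gt gx gy w ∈ Z Ss) := fun w hw => by
    rw [← qm_eq_one, ← qm_eq_one]; exact hW w hw
  have hX : ∀ k ∈ Finset.Icc 1 4, wX k ∈ WW := fun k hk => by
    unfold WW
    exact Finset.mem_union_left _ (Finset.mem_union_left _ (Finset.mem_image_of_mem _ hk))
  have hY : ∀ k ∈ Finset.Icc 1 4, wY k ∈ WW := fun k hk => by
    unfold WW
    exact Finset.mem_union_left _ (Finset.mem_union_right _ (Finset.mem_image_of_mem _ hk))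
  have h3 : w3 ∈ WW := by unfold WW; simp
  have h4 : w4 ∈ WW := by unfold WW; simp
  have h5 : w5 ∈ WW := by unfold WW; simp
  have h6 : w6 ∈ WW := by unfold WW; simp
  have hgen : ∀ g : Ga, ∃ w, (mark T X Y w)⁻¹ * g ∈ Z Ss := by
    intro g
    obtain ⟨w, hw⟩ := hψ (QuotientGroup.mk g)
    exact ⟨w, QuotientGroup.eq.1 hw⟩
  obtain ⟨Ψ, hΨ, e1, e2, e3⟩ := key hgen
    (fun k hk => by
      have := (hW' _ (hX k hk)).2 (base_wX k)
      rwa [mark_wX] at this)
    (fun k hk => by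
      have := (hW' _ (hY k hk)).2 (base_wY k)
      rwa [mark_wY] at this)
    (by
      have := fun h => base_w3 ((hW' _ h3).1 h)
      rwa [mark_w3] at this)
    (by
      have := fun h => base_w4 ((hW' _ h4).1 h)
      rwa [mark_w4] at this)
    (by
      have := (hW' _ h5).2 base_w5
      rwa [mark_w5] at this)
    (by
      have := fun h => base_w6 ((hW' _ h6).1 h)
      rwa [mark_w6] at this)
  have hm : mark T X Y = Ψ.comp (mark gt gx gy) := by
    rw [comp_mark, e1, e2, e3]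
  ext w
  rw [MonoidHom.mem_ker, MonoidHom.mem_ker, qm_eq_one, qm_eq_one, hm]
  exact hΨ _

theorem Z_mono {S S' : AddSubgroup R} (h : S ≤ S') : Z S ≤ Z S' := fun _ hg =>
  ⟨hg.1, hg.2.1, hg.2.2.1, h hg.2.2.2⟩

/-- the projection with kernel of order two -/
noncomputable def pr : GS →* GB :=
  QuotientGroup.map (Z Ss) (Z Sb) (MonoidHom.id Ga) (Z_mono Ss_le)

theorem pr_mk (g : Ga) : pr (QuotientGroup.mk g) = QuotientGroup.mk g := rfl

theorem pr_surjective : Function.Surjective pr := by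
  intro g
  obtain ⟨g, rfl⟩ := QuotientGroup.mk_surjective g
  exact ⟨QuotientGroup.mk g, rfl⟩

/-- the central element of order two -/
noncomputable def zz : GS := QuotientGroup.mk ⟨0, 0, 1, 0⟩

theorem pr_ker : (pr.ker : Set GS) = {1, zz} := by
  ext g
  obtain ⟨g, rfl⟩ := QuotientGroup.mk_surjective g
  simp only [SetLike.mem_coe, MonoidHom.mem_ker, pr_mk, Set.mem_insert_iff, Set.mem_singleton_iff]
  rw [QuotientGroup.eq_one_iff, QuotientGroup.eq_one_iff, zz, QuotientGroup.eq]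
  constructor
  · rintro ⟨h1, h2, h3, h4⟩
    rcases Int.even_or_odd (g.c.coeff 0) with he | ho
    · left; exact ⟨h1, h2, h3, h4, he.two_dvd⟩
    · right
      refine ⟨by simp [h1], by simp [h2, h3], by simp [h3], ?_⟩
      have e : (g⁻¹ * (⟨0, 0, 1, 0⟩ : Ga)).c = tt 0 - g.c := by
        simp [h1, tt]; ring
      rw [e]
      constructor
      · intro k hk
        rw [AddMonoidAlgebra.coeff_sub, Finsupp.sub_apply, h4 k hk, LaurentPolynomial.T_apply,
          if_neg, sub_zero]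
        rintro rfl; exact not_inC_zero hk
      · rw [AddMonoidAlgebra.coeff_sub, Finsupp.sub_apply, LaurentPolynomial.T_apply, if_pos rfl]
        obtain ⟨r, hr⟩ := ho
        rw [hr]; omega
  · rintro (h | h)
    · exact Z_mono Ss_le h
    · have h1 : (⟨0, 0, 1, 0⟩ : Ga) ∈ Z Sb := by
        refine ⟨rfl, rfl, rfl, fun k hk => ?_⟩
        change (1 : R).coeff k = 0
        rw [← tt_zero, LaurentPolynomial.T_apply, if_neg]
        rintro rfl; exact not_inC_zero hk
      have h2 := (Z Sb).mul_mem h1 ((Z Sb).inv_mem (Z_mono Ss_le h))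
      rw [mul_inv_rev, inv_inv, mul_inv_cancel_left] at h2
      exact h2

theorem gen_closure (S : AddSubgroup R) :
    Subgroup.closure (Set.range fun i : Fin 3 => qm S gt gx gy (FreeGroup.of i)) = ⊤ := by
  have h1 : (Set.range fun i : Fin 3 => qm S gt gx gy (FreeGroup.of i)) =
      (qm S gt gx gy) '' (Set.range FreeGroup.of) := by
    rw [← Set.range_comp]; rfl
  rw [h1, ← MonoidHom.map_closure, FreeGroup.closure_range_of,
    Subgroup.map_top_of_surjective _ (qm_std_surjective S)]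

theorem quasiIsometric_GB_GS : QuasiIsometric GB GS := by
  refine quasiIsometric_of pr pr_surjective ?_ (Set.finite_range _) (gen_closure Ss)
  rw [pr_ker]
  exact Set.toFinite _

theorem zz_ne : zz ≠ 1 := by
  intro h
  have := ((QuotientGroup.eq_one_iff _).1 h : (⟨0, 0, 1, 0⟩ : Ga) ∈ Z Ss)
  exact one_not_mem this.2.2.2

theorem card_ker : Nat.card pr.ker = 2 := by
  have h1 : Nat.card pr.ker = (pr.ker : Set GS).ncard := rfl
  rw [h1, pr_ker, Set.ncard_pair zz_ne.symm]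

theorem ker_le_center : pr.ker ≤ Subgroup.center GS := by
  intro g hg
  have h1 : g ∈ (pr.ker : Set GS) := hg
  rw [pr_ker] at h1
  rcases h1 with rfl | h1
  · exact Subgroup.one_mem _
  · rw [Set.mem_singleton_iff] at h1
    rw [h1, Subgroup.mem_center_iff]
    intro x
    obtain ⟨x, rfl⟩ := QuotientGroup.mk_surjective x
    exact congrArg QuotientGroup.mk (central (z := ⟨0, 0, 1, 0⟩) rfl rfl rfl x)

theorem fg_GS : Group.FG GS := by
  have : Group.FG (FreeGroup (Fin 3)) := inferInstance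
  exact Group.fg_of_surjective (qm_std_surjective Ss)

end Ga

end Pool.Agent.R721.Cond
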